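import Pool.Agent.FKB.EdgeDiff
import Pool.Agent.FKB.LimitA
import Pool.Agent.FKB.WiredT

open Finset
noncomputable section
namespace FKB

/-- a local increasing event differs between ordered measures at most by the sum of the
differences of the edge probabilities -/
theorem inc_diff_le {V : Type*} [DecidableEq V] {D D' D0 : Finset (V × V)} {w w' : V × V → ℝ}
    {q : ℝ} (hq : 1 ≤ q) (hw : Adm D w) (hw' : Adm D' w') (hD : D ⊆ D')
    (hle : ∀ e ∈ D, w e ≤ w' e) {F : Finset (V × V) → ℝ}
    (hF : ∀ A B : Finset (V × V), A ⊆ B → F A ≤ F B) (h0 : ∀ A, 0 ≤ F A) (h1 : ∀ A, F A ≤ 1)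
    (hloc : ∀ A, F A = F (A ∩ D0)) :
    E D' w' q F - E D w q F ≤
      ∑ e ∈ D0, (P D' w' q (fun A => e ∈ A) - P D w q (fun A => e ∈ A)) := by
  classical
  have hinc : Inc D' (fun A => (∑ e ∈ D0, ind (e ∈ A)) - F A) := by
    intro A B hAB _
    have hcard : ∑ e ∈ D0, ind (e ∈ A) ≤ ∑ e ∈ D0, ind (e ∈ B) :=
      sum_le_sum (fun e _ => ind_mono (fun h => hAB h))
    by_cases h : A ∩ D0 = B ∩ D0
    · have h2 : F A = F B := by rw [hloc A, hloc B, h]
      beta_reduce
      linarith
    · have h3 : ∃ e ∈ D0, e ∈ B ∧ e ∉ A := by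
        by_contra hc
        push Not at hc
        apply h
        apply Subset.antisymm (inter_subset_inter_right hAB)
        intro e he
        rw [mem_inter] at he ⊢
        exact ⟨hc e he.2 he.1, he.2⟩
      obtain ⟨e, he0, heB, heA⟩ := h3
      have h4 : ∑ e ∈ D0, ind (e ∈ A) + 1 ≤ ∑ e ∈ D0, ind (e ∈ B) := by
        have h5 : ∑ a ∈ D0.erase e, ind (a ∈ A) ≤ ∑ a ∈ D0.erase e, ind (a ∈ B) :=
          sum_le_sum (fun a _ => ind_mono (fun h => hAB h))
        rw [← Finset.add_sum_erase D0 _ he0, ← Finset.add_sum_erase D0 (fun a => ind (a ∈ B)) he0,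
          ind_false heA, ind_true heB]
        linarith
      have h6 := h1 B
      have h7 := h0 A
      beta_reduce
      linarith
  have key := E_dom hq hw hw' hD hle hinc
  rw [E_sub, E_sub, E_sum, E_sum] at key
  unfold P
  rw [sum_sub_distrib]
  linarith

/-- the wired density is at most the free density at a larger parameter -/
theorem th1_le_th0 {d : ℕ} (hd : 1 ≤ d) {q p0 p1 : ℝ} (hq : 1 < q) (h0 : 0 < p0) (h01 : p0 < p1)
    (h1 : p1 < 1) : th1 d p0 q ≤ th0 d p1 q := by
  have hq1 : 1 ≤ q := hq.le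
  have hq0 : 0 < q := lt_trans one_pos hq
  have hp1 : 0 ≤ p1 := (h0.trans h01).le
  obtain ⟨C, hC, hS⟩ := edge_diff hd hq h0 h01 h1
  unfold th0
  refine le_ciInf (fun r => ?_)
  have main : ∀ n : ℕ, 1 ≤ n → th1 d p0 q ≤
      (⨆ m : ℕ, fth d m r p1 q) + (lat (cube (0 : Pt d) r)).card * (C / n) := by
    intro n hn
    obtain ⟨pn, hpn0, hpn1, hdn⟩ := hS n hn
    have hpn : 0 ≤ pn := (h0.trans hpn0).le
    have hpn' : pn ≤ 1 := (hpn1.trans h1).le
    obtain ⟨N, hN⟩ : ∃ N, N = r + 2 * n + 2 := ⟨_, rfl⟩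
    set H := cube (0 : Pt d) N with hH
    have hsub : cube (0 : Pt d) r ⊆ H := limA_cube_mono (by omega)
    have hnO : ∀ e ∈ lat (cube (0 : Pt d) r), e ∉ wO H := by
      intro e he hO
      have h2 := (latgeo_mem_lat.1 he).1.1
      have h3 := (mem_product.1 hO).1
      rw [hH, mem_bd_cube] at h3
      obtain ⟨_, i, hi⟩ := h3
      rw [mem_cube] at h2
      have := h2 i
      omega
    have key := inc_diff_le (D := lat H) (D' := wD H) (D0 := lat (cube (0 : Pt d) r))
      (w := fun _ => pn) (w' := pr (wO H) pn) hq1 (fun _ _ => ⟨hpn, hpn'⟩) (adm_pr hpn hpn')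
      subset_union_left
      (fun e _ => by
        unfold pr
        split_ifs
        · exact hpn'
        · exact le_refl _)
      (F := fun A => ind (Far r A (0 : Pt d))) (fun A B hAB => ind_mono (wirB_far_mono hAB))
      (fun A => ind_nonneg _) (fun A => ind_le_one _) (fun A => ind_congr wirB_far_inter.symm)
    -- the terms of the sum
    have hterm : ∀ e ∈ lat (cube (0 : Pt d) r),
        P (wD H) (pr (wO H) pn) q (fun A => e ∈ A) - P (lat H) (fun _ => pn) q (fun A => e ∈ A) ≤
          C / n := by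
      intro e he
      have heH : e ∈ lat H := lat_mono hsub he
      have heD : e ∈ wD H := mem_union_left _ heH
      rw [P_edge hq0 (adm_pr hpn hpn') heD, P_edge hq0 (fun _ _ => ⟨hpn, hpn'⟩) heH]
      have hpr : pr (wO H) pn e = pn := by
        unfold pr
        rw [if_neg (hnO e he)]
      rw [hpr]
      obtain ⟨⟨he1, he2⟩, i, hi⟩ := latgeo_mem_lat.1 he
      have hcube : cube e.1 (2 * n + 1) ⊆ H := by
        intro x hx
        rw [hH, mem_cube]
        rw [mem_cube] at hx he1
        intro j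
        have h2 := hx j
        have h3 := he1 j
        rw [abs_le] at h2 h3 ⊢
        simp only [Pi.zero_apply] at h3 ⊢
        push_cast at h2 h3 ⊢
        rw [hN]
        push_cast
        constructor <;> linarith [h2.1, h2.2, h3.1, h3.2]
      have h4 := hdn H e.1 i hcube
      unfold wP fP at h4
      rw [← hi] at h4
      have h5 : 0 ≤ q⁻¹ := by positivity
      have h6 : q⁻¹ ≤ 1 := inv_le_one_of_one_le₀ hq1
      have h7 : 0 ≤ C / (n : ℝ) := by positivity
      have h8 : 0 ≤ pn * (1 - q⁻¹) := mul_nonneg hpn (by linarith)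
      have h9 : pn * (1 - q⁻¹) ≤ 1 := by nlinarith
      have h10 := mul_le_mul_of_nonneg_left h4 h8
      have h11 := mul_le_mul_of_nonneg_right h9 h7
      linarith
    have hsum := sum_le_sum hterm
    rw [sum_const, nsmul_eq_mul] at hsum
    -- wired side
    have hw1 : th d N pn q ≤ E (wD H) (pr (wO H) pn) q (fun A => ind (Far r A (0 : Pt d))) := by
      apply E_mono hq0 (adm_pr hpn hpn')
      intro A _
      apply ind_mono
      intro hfar
      obtain ⟨y, hy, hc⟩ := hfar
      by_contra hn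
      have hn' : ¬ Far r (A ∩ lat (cube (0 : Pt d) N)) 0 :=
        fun hh => hn (wirB_far_mono Finset.inter_subset_left hh)
      have hL : IsLat (A ∩ lat (cube (0 : Pt d) N)) :=
        fun e he => isLat_lat _ e (Finset.mem_inter.mp he).2
      have h3 := notFar_cluster hL hn' hc
      rw [mem_bd_cube] at hy
      obtain ⟨_, i, hi⟩ := hy
      rw [mem_cube] at h3
      have := h3 i
      omega
    have hw2 : th1 d p0 q ≤ th d N pn q :=
      (th1_mono hq1 h0.le hpn0.le hpn').trans (th1_le hq1 hpn hpn')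
    -- free side
    have hf1 : E (lat H) (fun _ => pn) q (fun A => ind (Far r A (0 : Pt d))) ≤
        ⨆ m : ℕ, fth d m r p1 q :=
      (limA_fth_mono_p (m := N) hq1 hpn hpn1.le h1.le).trans
        (le_ciSup (limA_bdd hq1 hp1 h1.le) N)
    linarith
  -- let n → ∞
  by_contra hc
  push Not at hc
  set a := (⨆ m : ℕ, fth d m r p1 q) with ha
  obtain ⟨n, hn⟩ := exists_nat_gt (((lat (cube (0 : Pt d) r)).card * C) / (th1 d p0 q - a))
  have hgap : 0 < th1 d p0 q - a := by linarith
  have hn1 : 1 ≤ n := by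
    rcases Nat.eq_zero_or_pos n with h | h
    · rw [h, Nat.cast_zero] at hn
      have : 0 ≤ ((lat (cube (0 : Pt d) r)).card * C) / (th1 d p0 q - a) := by positivity
      linarith
    · exact h
  have h2 := main n hn1
  have hnpos : (0 : ℝ) < n := by exact_mod_cast hn1
  rw [div_lt_iff₀ hgap] at hn
  have h3 : ((lat (cube (0 : Pt d) r)).card : ℝ) * (C / n) < th1 d p0 q - a := by
    rw [← mul_div_assoc, div_lt_iff₀ hnpos]
    linarith
  linarith

end FKB
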