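import Pool.Agent.BK.Uniq
import Pool.Agent.FKB.LimitA

open Finset
noncomputable section
namespace FKB

private theorem low_far {d : ℕ} {p q : ℝ} (hq : 1 ≤ q) (hp0 : 0 ≤ p) (hp1 : p ≤ 1)
    {m R M : ℕ} {x : Pt d} (hx : cube x m ⊆ cube (0 : Pt d) M) :
    fth d m R p q ≤ P (lat (cube (0 : Pt d) M)) (fun _ => p) q (fun A => Far R A x) := by
  have e0 : cube x m = (cube (0 : Pt d) m).map (tr x) := by rw [tr_cube, zero_add]
  have e1 : P (lat (cube x m)) (fun _ => p) q (fun A => Far R A x) = fth d m R p q := by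
    unfold fth P
    rw [e0, tr_lat, E_map (tr x) (lat (cube (0 : Pt d) m))]
    refine E_congr (fun A _ => ind_congr ?_)
    have h := tr_far x 0 R A
    rwa [zero_add] at h
  rw [← e1]
  exact E_dom hq (fun _ _ => ⟨hp0, hp1⟩) (fun _ _ => ⟨hp0, hp1⟩) (lat_mono hx)
    (fun _ _ => le_refl p) (limA_inc_far _ _ _)

private theorem low_cube {d : ℕ} {x : Pt d} {n m M : ℕ} (hx : x ∈ cube (0 : Pt d) n)
    (h : n + m ≤ M) : cube x m ⊆ cube (0 : Pt d) M := by
  intro y hy
  rw [mem_cube] at hx hy ⊢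
  intro i
  have h1 := hx i
  have h2 := hy i
  have h3 : ((n + m : ℕ) : ℤ) ≤ M := by exact_mod_cast h
  push_cast at h3
  rw [abs_le] at *
  simp only [Pi.zero_apply, sub_zero] at *
  constructor <;> omega

private theorem low_cube' {d : ℕ} {x : Pt d} {n R : ℕ} (hx : x ∈ cube (0 : Pt d) n) :
    cube (0 : Pt d) R ⊆ cube x (R + n) := by
  intro y hy
  rw [mem_cube] at hx hy ⊢
  intro i
  have h1 := hx i
  have h2 := hy i
  push_cast
  rw [abs_le] at *
  simp only [Pi.zero_apply, sub_zero] at *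
  constructor <;> omega

private theorem low_th0_nonneg {d : ℕ} {p q : ℝ} (hq : 1 ≤ q) (hp0 : 0 ≤ p) (hp1 : p ≤ 1) :
    0 ≤ th0 d p q := le_ciInf fun _ => limA_sup_nonneg hq hp0 hp1

/-- two points are joined with probability at least `θ² - ε` in a large free box -/
theorem two_lower {d : ℕ} (hd : 1 ≤ d) {p q : ℝ} (hq : 1 ≤ q) (hp0 : 0 < p) (hp1 : p ≤ 1)
    (n : ℕ) {ε : ℝ} (hε : 0 < ε) :
    ∃ M : ℕ, ∀ x ∈ cube (0 : Pt d) n, ∀ y ∈ cube (0 : Pt d) n,
      th0 d p q ^ 2 - ε ≤ fP (cube (0 : Pt d) M) p q x y := by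
  obtain ⟨R, hnR, m0, hm0⟩ := uniq_fin (d := d) hd hq hp0 hp1 n (half_pos hε)
  have hth0 : 0 ≤ th0 d p q := low_th0_nonneg hq hp0.le hp1
  have hth1 : th0 d p q ≤ 1 :=
    ((th0_le_th1 hq hp0.le hp1).trans (th1_le (l := 0) hq hp0.le hp1)).trans
      (th_le_one hq hp0.le hp1)
  have hsup : th0 d p q - ε / 4 < ⨆ m : ℕ, fth d m (R + n) p q := by
    have h1 : th0 d p q ≤ ⨆ m : ℕ, fth d m (R + n) p q := ciInf_le (limA_bddBelow hq hp0.le hp1) _
    linarith
  obtain ⟨m1, hm1⟩ := exists_lt_of_lt_ciSup hsup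
  refine ⟨max m0 (n + m1), fun x hx y hy => ?_⟩
  have hq0 : 0 < q := lt_of_lt_of_le one_pos hq
  set M := max m0 (n + m1) with hM
  have hadm : Adm (lat (cube (0 : Pt d) M)) (fun _ => p) := fun _ _ => ⟨hp0.le, hp1⟩
  have hfx := low_far (R := R + n) hq hp0.le hp1 (low_cube hx (le_max_right m0 (n + m1)))
  have hfy := low_far (R := R + n) hq hp0.le hp1 (low_cube hy (le_max_right m0 (n + m1)))
  rw [← hM] at hfx hfy
  have htwo := hm0 (cube (0 : Pt d) M) (limA_cube_mono (le_max_left m0 (n + m1)))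
  have hfkg := E_fkg (D := lat (cube (0 : Pt d) M)) (w := fun _ => p) (q := q) hq hadm
    (limA_inc_far _ (R + n) x) (limA_inc_far _ (R + n) y)
  -- pointwise inequality
  have hpt : E (lat (cube (0 : Pt d) M)) (fun _ => p) q
      (fun A => ind (Far (R + n) A x) * ind (Far (R + n) A y)) ≤
      E (lat (cube (0 : Pt d) M)) (fun _ => p) q
        (fun A => ind (Conn A x y) + ind (TwoC (0 : Pt d) n R A)) := by
    refine E_mono hq0 hadm fun A hA => ?_
    by_cases h1 : Far (R + n) A x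
    · by_cases h2 : Far (R + n) A y
      · rw [ind_true h1, ind_true h2]
        by_cases h3 : Conn A x y
        · rw [ind_true h3]
          have := ind_nonneg (TwoC (0 : Pt d) n R A)
          linarith
        · have h4 : TwoC (0 : Pt d) n R A := by
            refine ⟨x, hx, y, hy, ?_, ?_, ?_⟩
            · exact Geo_cross (low_cube' hx) (Geo_cube_mono 0 hnR hx) h1
            · exact Geo_cross (low_cube' hy) (Geo_cube_mono 0 hnR hy) h2
            · exact fun h => h3 (h.mono' Finset.inter_subset_left)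
          rw [ind_true h4]
          have := ind_nonneg (Conn A x y)
          linarith
      · rw [ind_false h2, mul_zero]
        exact add_nonneg (ind_nonneg _) (ind_nonneg _)
    · rw [ind_false h1, zero_mul]
      exact add_nonneg (ind_nonneg _) (ind_nonneg _)
  rw [E_add] at hpt
  have hA : E (lat (cube (0 : Pt d) M)) (fun _ => p) q (fun A => ind (Conn A x y)) =
      fP (cube (0 : Pt d) M) p q x y := rfl
  have hB : E (lat (cube (0 : Pt d) M)) (fun _ => p) q
      (fun A => ind (TwoC (0 : Pt d) n R A)) ≤ ε / 2 := htwo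
  have hC : th0 d p q - ε / 4 ≤ E (lat (cube (0 : Pt d) M)) (fun _ => p) q
      (fun A => ind (Far (R + n) A x)) := hm1.le.trans hfx
  have hD : th0 d p q - ε / 4 ≤ E (lat (cube (0 : Pt d) M)) (fun _ => p) q
      (fun A => ind (Far (R + n) A y)) := hm1.le.trans hfy
  have hE0 : 0 ≤ E (lat (cube (0 : Pt d) M)) (fun _ => p) q
      (fun A => ind (Far (R + n) A x)) := P_nonneg hq0 hadm _
  have hE1 : 0 ≤ E (lat (cube (0 : Pt d) M)) (fun _ => p) q
      (fun A => ind (Far (R + n) A y)) := P_nonneg hq0 hadm _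
  have hprod : th0 d p q ^ 2 - ε / 2 ≤ E (lat (cube (0 : Pt d) M)) (fun _ => p) q
      (fun A => ind (Far (R + n) A x)) * E (lat (cube (0 : Pt d) M)) (fun _ => p) q
      (fun A => ind (Far (R + n) A y)) := by
    rcases le_total (th0 d p q) (ε / 4) with h | h
    · have h1 : th0 d p q ^ 2 ≤ th0 d p q := by nlinarith
      have h2 := mul_nonneg hE0 hE1
      linarith
    · have h1 : 0 ≤ th0 d p q - ε / 4 := by linarith
      have h2 := mul_le_mul hC hD h1 hE0
      nlinarith
  linarith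

end FKB
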