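import Pool.Agent.IR.Sub
import Pool.Agent.IR.Comp
import Pool.Agent.IR.Low
import Pool.Agent.BK.Final

open Finset Filter Topology
noncomputable section
namespace FKB

private theorem crit_sum_cont {d : ℕ} (H : Finset (Pt d)) (q : ℝ)
    (F : Finset (Pt d × Pt d) → ℝ) :
    Continuous (fun p : ℝ => ∑ A ∈ (lat H).powerset, wt (lat H) (fun _ => p) q A * F A) := by
  refine continuous_finsetSum _ fun A _ => ?_
  unfold wt
  refine Continuous.mul ?_ continuous_const
  refine Continuous.mul ?_ continuous_const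
  refine Continuous.mul ?_ ?_
  · exact continuous_finsetProd _ fun _ _ => continuous_id
  · exact continuous_finsetProd _ fun _ _ => continuous_const.sub continuous_id

/-- connection probabilities of a finite free box are continuous in `p` -/
theorem fP_continuousAt {d : ℕ} (H : Finset (Pt d)) {q : ℝ} (hq : 1 ≤ q) (x y : Pt d) {p : ℝ}
    (hp0 : 0 ≤ p) (hp1 : p ≤ 1) : ContinuousWithinAt (fun p => fP H p q x y) (Set.Icc 0 1) p := by
  have hZ : Z (lat H) (fun _ => p) q ≠ 0 :=
    (Z_pos (lt_of_lt_of_le one_pos hq) (fun _ _ => ⟨hp0, hp1⟩)).ne'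
  have hZc : Continuous (fun p : ℝ => Z (lat H) (fun _ => p) q) := by
    have h := crit_sum_cont H q (fun _ => 1)
    simp only [mul_one] at h
    exact h
  have hN := crit_sum_cont H q (fun A => ind (Conn A x y))
  exact (hN.continuousAt.div hZc.continuousAt hZ).continuousWithinAt

/-- no infinite cluster at the critical point for the free measure, integer `q ≥ 2`, `d ≥ 3` -/
theorem th0_crit {d q : ℕ} (hd : 3 ≤ d) (hq : 2 ≤ q) (hc : pcF d q < 1) :
    th0 d (pcF d q) q = 0 := by
  have hq1 : (1 : ℝ) < q := by exact_mod_cast (by omega : 1 < q)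
  obtain ⟨hpc0, hpc1, hlt, -⟩ := pcF_aux d hq1.le
  set pc := pcF d q with hpc
  rcases hpc0.eq_or_lt with h0 | h0
  · rw [← h0]
    exact le_antisymm (finC_zero hq1.le) (th0_nonneg hq1.le le_rfl zero_le_one)
  obtain ⟨K, hK, hir⟩ := ir_sub hd hq
  have hth0 : 0 ≤ th0 d pc q := th0_nonneg hq1.le h0.le hc.le
  by_contra hne
  have hpos : 0 < th0 d pc q := lt_of_le_of_ne hth0 (Ne.symm hne)
  set θ := th0 d pc q with hθ
  have hβ : 0 < -Real.log (1 - pc) := by
    have := Real.log_neg (by linarith : 0 < 1 - pc) (by linarith : 1 - pc < 1)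
    linarith
  set β := -Real.log (1 - pc) with hβdef
  -- the bound at the critical point
  have key : ∀ n : ℕ, 1 ≤ n → θ ^ 2 / 2 * ((n : ℝ) * β) ≤ K := by
    intro n hn
    have hn1 : (1 : ℝ) ≤ n := by exact_mod_cast hn
    obtain ⟨M, hM⟩ := two_lower (d := d) (by omega) hq1.le h0 hc.le n
      (show 0 < θ ^ 2 / 2 by positivity)
    have hcont : ContinuousWithinAt (fun p : ℝ =>
        (∑ x ∈ cube (0 : Pt d) n, ∑ y ∈ cube (0 : Pt d) n, fP (cube (0 : Pt d) M) p q x y) *
          ((n : ℝ) ^ (d - 2) * (-Real.log (1 - p)))) (Set.Ioo 0 pc) pc := by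
      refine ContinuousWithinAt.mul ?_ ?_
      · refine tendsto_finsetSum _ fun x _ => tendsto_finsetSum _ fun y _ => ?_
        refine (fP_continuousAt (cube (0 : Pt d) M) hq1.le x y h0.le hc.le).mono ?_
        intro p hp
        exact ⟨hp.1.le, hp.2.le.trans hc.le⟩
      · refine ContinuousWithinAt.mul continuousWithinAt_const ?_
        refine ContinuousWithinAt.neg ?_
        refine ContinuousAt.continuousWithinAt ?_
        refine ContinuousAt.log ?_ (by linarith)
        exact continuousAt_const.sub continuousAt_id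
    have hnb : (𝓝[Set.Ioo 0 pc] pc).NeBot := by
      rw [← mem_closure_iff_nhdsWithin_neBot, closure_Ioo h0.ne]
      exact ⟨h0.le, le_rfl⟩
    have hle : (∑ x ∈ cube (0 : Pt d) n, ∑ y ∈ cube (0 : Pt d) n,
        fP (cube (0 : Pt d) M) pc q x y) * ((n : ℝ) ^ (d - 2) * β) ≤
        K * ((cube (0 : Pt d) n).card : ℝ) ^ 2 := by
      refine le_of_tendsto hcont ?_
      filter_upwards [self_mem_nhdsWithin] with p hp
      have hp0 : 0 < p := hp.1
      have hp1 : p < 1 := hp.2.trans hc
      refine hir p hp0 hp1 ?_ n M hn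
      have hm1 : 0 < (p + pc) / 2 := by linarith
      have hm2 : (p + pc) / 2 < 1 := by linarith [hp.2]
      have hm3 : p < (p + pc) / 2 := by linarith [hp.2]
      have hm4 : (p + pc) / 2 < pc := by linarith [hp.2]
      have e1 := th1_le_th0 (d := d) (by omega) hq1 hp0 hm3 hm2
      rw [hlt _ hm1.le hm2.le hm4] at e1
      exact le_antisymm e1 (th1_nonneg hq1.le hp0.le hp1.le)
    have hsum : ((cube (0 : Pt d) n).card : ℝ) ^ 2 * (θ ^ 2 / 2) ≤
        ∑ x ∈ cube (0 : Pt d) n, ∑ y ∈ cube (0 : Pt d) n, fP (cube (0 : Pt d) M) pc q x y := by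
      calc ((cube (0 : Pt d) n).card : ℝ) ^ 2 * (θ ^ 2 / 2)
          = ∑ x ∈ cube (0 : Pt d) n, ∑ y ∈ cube (0 : Pt d) n, (θ ^ 2 / 2) := by
            simp only [Finset.sum_const, nsmul_eq_mul]; ring
        _ ≤ _ := by
            refine Finset.sum_le_sum fun x hx => Finset.sum_le_sum fun y hy => ?_
            have := hM x hx y hy
            linarith
    have hcard : (0 : ℝ) < ((cube (0 : Pt d) n).card : ℝ) ^ 2 := by
      have : 0 < (cube (0 : Pt d) n).card := by
        rw [card_cube]; positivity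
      positivity
    have hpow : (n : ℝ) ≤ (n : ℝ) ^ (d - 2) := by
      calc (n : ℝ) = (n : ℝ) ^ 1 := (pow_one _).symm
        _ ≤ (n : ℝ) ^ (d - 2) := pow_le_pow_right₀ hn1 (by omega)
    have h1 : ((cube (0 : Pt d) n).card : ℝ) ^ 2 * (θ ^ 2 / 2) * ((n : ℝ) * β) ≤
        K * ((cube (0 : Pt d) n).card : ℝ) ^ 2 := by
      refine le_trans (mul_le_mul hsum ?_ (by positivity) ?_) hle
      · exact mul_le_mul_of_nonneg_right hpow hβ.le
      · exact le_trans (by positivity) hsum
    have h2 : ((cube (0 : Pt d) n).card : ℝ) ^ 2 * (θ ^ 2 / 2 * ((n : ℝ) * β)) ≤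
        ((cube (0 : Pt d) n).card : ℝ) ^ 2 * K := by linarith
    exact le_of_mul_le_mul_left h2 hcard
  obtain ⟨n, hn⟩ := exists_nat_gt (K / (θ ^ 2 / 2 * β))
  have hden : 0 < θ ^ 2 / 2 * β := by positivity
  have h1 := key (n + 1) (by omega)
  rw [div_lt_iff₀ hden] at hn
  push_cast at h1
  nlinarith

end FKB
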