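import Pool.Agent.FKQ.Rep
import Pool.Agent.FKB.WiredT

/-!
Infrared bound for the Potts model on the torus (all integers `q ≥ 2`): definitions.
-/

open Finset
noncomputable section
namespace FKB

section Abs
variable {T C ι : Type*}

/-- a reflection of a graph: an involutive automorphism exchanging the two halves `L` and `¬ L`,
such that all edges between the halves join a vertex to its image -/
structure GRefl (adj : T → T → Prop) where
  /-- the reflection -/
  th : T → T
  /-- the first half -/
  L : T → Prop
  invol : ∀ x, th (th x) = x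
  aut : ∀ x y, adj x y → adj (th x) (th y)
  half : ∀ x, (L (th x) ↔ ¬ L x)
  cross : ∀ x y, adj x y → L x → ¬ L y → y = th x

/-- every edge is reversed by a reflection -/
def Reflective (adj : T → T → Prop) : Prop :=
  ∀ x y, adj x y → ∃ R : GRefl adj, y = R.th x

/-- antisymmetric vector fields on pairs -/
def Anti (h : T → T → ι → ℝ) : Prop := ∀ x y k, h x y k = -h y x k

variable [Fintype T] [Fintype C] [Fintype ι]

/-- Gaussian energy of the spins `a` in the edge field `h` (each edge is counted twice) -/
def gEn (adj : T → T → Prop) (S : C → ι → ℝ) (h : T → T → ι → ℝ) (a : T → C) : ℝ :=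
  ∑ x, ∑ y, ind (adj x y) * ∑ k, (S (a x) k - S (a y) k - h x y k) ^ 2

variable [DecidableEq T]

/-- partition function in the edge field `h` -/
def ZG (b : ℝ) (adj : T → T → Prop) (S : C → ι → ℝ) (h : T → T → ι → ℝ) : ℝ :=
  ∑ a : T → C, Real.exp (-(b * gEn adj S h a))

/-- the field `h` of the half `L`, reflected to the other half, zero on the crossing edges -/
def hLft {adj : T → T → Prop} (R : GRefl adj) (h : T → T → ι → ℝ) : T → T → ι → ℝ :=
  fun x y k => ind (R.L x ∧ R.L y) * h x y k +
    ind (¬ R.L x ∧ ¬ R.L y) * h (R.th x) (R.th y) k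

/-- the field `h` of the half `¬ L`, reflected to the other half, zero on the crossing edges -/
def hRgt {adj : T → T → Prop} (R : GRefl adj) (h : T → T → ι → ℝ) : T → T → ι → ℝ :=
  fun x y k => ind (¬ R.L x ∧ ¬ R.L y) * h x y k +
    ind (R.L x ∧ R.L y) * h (R.th x) (R.th y) k

end Abs

section Torus
variable (d L : ℕ)

/-- the box `[-L, L-1]^d`, vertex set of the torus of side `2 L` -/
def tbox : Finset (Pt d) := Finset.Icc (fun _ => -(L : ℤ)) (fun _ => (L : ℤ) - 1)

/-- the edges of the torus: the lattice edges of the box and the wrapping edges -/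
def torE : Finset (Pt d × Pt d) :=
  lat (tbox d L) ∪ (tbox d L ×ˢ tbox d L).filter
    (fun e => ∃ i, e.1 i = (L : ℤ) - 1 ∧ e.2 = e.1 - Pi.single i (2 * (L : ℤ) - 1))

/-- adjacency in the torus -/
def tadj (x y : tbox d L) : Prop :=
  ((x : Pt d), (y : Pt d)) ∈ torE d L ∨ ((y : Pt d), (x : Pt d)) ∈ torE d L

end Torus
end FKB
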