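import Pool.Agent.IR.Crit
import Pool.Agent.BK.FinalR

open Finset MeasureTheory Filter
noncomputable section
namespace FKB

/-- at `p = 1` the origin is joined to the boundary -/
theorem fin_one {d : ℕ} (hd : 1 ≤ d) {q : ℝ} (hq : 1 ≤ q) {a b : Pt d} (ha : ∀ i, a i ≤ 0)
    (hb : ∀ i, 0 ≤ b i) :
    P (lat (Finset.Icc a b)) (fun _ => 1) q
      (fun A => ∃ y ∈ bd (Finset.Icc a b), Conn A 0 y) = 1 :=
  le_antisymm (P_le_one (by linarith) (finC_adm _ zero_le_one le_rfl) _) (finC_one hd hq ha hb)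

/-- the lower bound for all `p`, integer `q ≥ 2`, `d ≥ 3` -/
theorem low_int {d q : ℕ} (hd : 3 ≤ d) (hq : 2 ≤ q) {p : ℝ} (hp0 : 0 ≤ p) (hp1 : p ≤ 1)
    {ε : ℝ} (hε : 0 < ε) :
    ∃ n0 : ℕ, ∀ a b : Pt d, (∀ i, a i ≤ -(n0 : ℤ)) → (∀ i, (n0 : ℤ) ≤ b i) →
      th0 d p q - ε ≤ finC_beta a b p q := by
  have hd1 : 1 ≤ d := by omega
  have hq1 : (1 : ℝ) ≤ (q : ℝ) := by
    have : 1 ≤ q := by omega
    exact_mod_cast this
  obtain ⟨h1, h2, h3, h4⟩ := pcF_aux d hq1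
  have hzero : th0 d p q = 0 → ∃ n0 : ℕ, ∀ a b : Pt d, (∀ i, a i ≤ -(n0 : ℤ)) →
      (∀ i, (n0 : ℤ) ≤ b i) → th0 d p q - ε ≤ finC_beta a b p q := by
    intro h
    refine ⟨0, fun a b _ _ => ?_⟩
    rw [h]
    have := P_nonneg (D := lat (Finset.Icc a b)) (w := fun _ => p) (by linarith : (0 : ℝ) < q)
      (finC_adm _ hp0 hp1) (fun A => ∃ y ∈ bd (Finset.Icc a b), Conn A 0 y)
    unfold finC_beta
    linarith
  rcases lt_trichotomy p (pcF d q) with hlt | heq | hgt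
  · exact hzero (h3 p hp0 hp1 hlt)
  · rcases hp1.lt_or_eq with h | h
    · refine hzero ?_
      rw [heq]
      exact th0_crit hd hq (heq ▸ h)
    · subst h
      refine ⟨0, fun a b ha hb => ?_⟩
      have h5 := finC_le_one (d := d) hq1 hp0 le_rfl
      have h6 : 1 ≤ finC_beta a b 1 (q : ℝ) :=
        finC_one hd1 hq1 (fun j => by simpa using ha j) (fun j => by simpa using hb j)
      linarith
  · have hpp : 0 < p := lt_of_le_of_lt h1 hgt
    exact blower_box hd1 hq1 (mainCube_int hd hq) hpp hp1 ⟨(pcF d q + p) / 2, by linarith,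
      by linarith, h4 _ (by linarith) (by linarith) (by linarith)⟩ hε

end FKB
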