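import Pool.Agent.IR.RefIneq

open Finset
noncomputable section
namespace FKB

variable {T C ι : Type*} [Fintype T] [DecidableEq T] [Fintype C] [Nonempty C] [Fintype ι]

open Classical in
private theorem hLft_eq {adj : T → T → Prop} (R : GRefl adj) (h : T → T → ι → ℝ) (x y : T) :
    hLft R h x y = if R.L x ∧ R.L y then h x y
      else if ¬ R.L x ∧ ¬ R.L y then h (R.th x) (R.th y) else 0 := by
  funext k
  by_cases h1 : R.L x <;> by_cases h2 : R.L y <;> simp [hLft, ind, h1, h2]

open Classical in
private theorem hRgt_eq {adj : T → T → Prop} (R : GRefl adj) (h : T → T → ι → ℝ) (x y : T) :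
    hRgt R h x y = if ¬ R.L x ∧ ¬ R.L y then h x y
      else if R.L x ∧ R.L y then h (R.th x) (R.th y) else 0 := by
  funext k
  by_cases h1 : R.L x <;> by_cases h2 : R.L y <;> simp [hRgt, ind, h1, h2]

/-- fields with values in a set of vectors, antisymmetric and supported on the edges -/
private def Fld (adj : T → T → Prop) (V : Set (ι → ℝ)) : Set (T → T → ι → ℝ) :=
  {g | Anti g ∧ (∀ x y, ¬ adj x y → g x y = 0) ∧ ∀ x y, g x y ∈ V}

private theorem fld_finite (adj : T → T → Prop) {V : Set (ι → ℝ)} (hV : V.Finite) :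
    (Fld adj V).Finite := by
  have h1 : ({g : T → T → ι → ℝ | ∀ x, g x ∈ {f : T → ι → ℝ | ∀ y, f y ∈ V}}).Finite :=
    Set.Finite.pi' (fun _ => Set.Finite.pi' (fun _ => hV))
  exact h1.subset (fun g hg x y => hg.2.2 x y)

private theorem fld_lft {adj : T → T → Prop} (R : GRefl adj) {V : Set (ι → ℝ)}
    (h0 : (0 : ι → ℝ) ∈ V) {g : T → T → ι → ℝ} (hg : g ∈ Fld adj V) : hLft R g ∈ Fld adj V := by
  classical
  obtain ⟨ha, hs, hv⟩ := hg
  refine ⟨?_, ?_, ?_⟩
  · intro x y k
    have e1 := congrFun (hLft_eq R g x y) k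
    have e2 := congrFun (hLft_eq R g y x) k
    rw [e1, e2]
    have a1 := ha x y k
    have a2 := ha (R.th x) (R.th y) k
    by_cases h1 : R.L x <;> by_cases h2 : R.L y <;> simp [h1, h2, a1, a2]
  · intro x y hxy
    rw [hLft_eq]
    have n2 : ¬ adj (R.th x) (R.th y) := by
      intro h
      have := R.aut _ _ h
      rw [R.invol, R.invol] at this
      exact hxy this
    rw [hs x y hxy, hs _ _ n2]
    simp
  · intro x y
    rw [hLft_eq]
    split_ifs
    · exact hv x y
    · exact hv _ _
    · exact h0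

private theorem fld_rgt {adj : T → T → Prop} (R : GRefl adj) {V : Set (ι → ℝ)}
    (h0 : (0 : ι → ℝ) ∈ V) {g : T → T → ι → ℝ} (hg : g ∈ Fld adj V) : hRgt R g ∈ Fld adj V := by
  classical
  obtain ⟨ha, hs, hv⟩ := hg
  refine ⟨?_, ?_, ?_⟩
  · intro x y k
    have e1 := congrFun (hRgt_eq R g x y) k
    have e2 := congrFun (hRgt_eq R g y x) k
    rw [e1, e2]
    have a1 := ha x y k
    have a2 := ha (R.th x) (R.th y) k
    by_cases h1 : R.L x <;> by_cases h2 : R.L y <;> simp [h1, h2, a1, a2]
  · intro x y hxy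
    rw [hRgt_eq]
    have n2 : ¬ adj (R.th x) (R.th y) := by
      intro h
      have := R.aut _ _ h
      rw [R.invol, R.invol] at this
      exact hxy this
    rw [hs x y hxy, hs _ _ n2]
    simp
  · intro x y
    rw [hRgt_eq]
    split_ifs
    · exact hv x y
    · exact hv _ _
    · exact h0

/-- number of non-zero pairs -/
private def nz (g : T → T → ι → ℝ) : ℕ := by
  classical
  exact ((univ : Finset (T × T)).filter (fun p => g p.1 p.2 ≠ 0)).card

private theorem nz_lt {adj : T → T → Prop} (R : GRefl adj) (g : T → T → ι → ℝ) {x y : T}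
    (hx : g x y ≠ 0) (hxy : y = R.th x) : nz (hLft R g) + nz (hRgt R g) < 2 * nz g := by
  classical
  let U : Finset (T × T) := univ
  let A := U.filter (fun p => g p.1 p.2 ≠ 0 ∧ R.L p.1 ∧ R.L p.2)
  let B := U.filter (fun p => g p.1 p.2 ≠ 0 ∧ ¬ R.L p.1 ∧ ¬ R.L p.2)
  let Z := U.filter (fun p => g p.1 p.2 ≠ 0 ∧ ¬ (R.L p.1 ∧ R.L p.2) ∧ ¬ (¬ R.L p.1 ∧ ¬ R.L p.2))
  have hinj : Function.Injective (fun p : T × T => (R.th p.1, R.th p.2)) := by
    intro p q h
    simp only [Prod.mk.injEq] at h
    have h1 := congrArg R.th h.1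
    have h2 := congrArg R.th h.2
    rw [R.invol, R.invol] at h1 h2
    exact Prod.ext h1 h2
  -- left
  have hL : nz (hLft R g) ≤ A.card + A.card := by
    have hsub : U.filter (fun p => hLft R g p.1 p.2 ≠ 0) ⊆
        A ∪ A.image (fun p : T × T => (R.th p.1, R.th p.2)) := by
      intro p hp
      rw [mem_filter] at hp
      have hp2 := hp.2
      rw [hLft_eq] at hp2
      rw [mem_union]
      by_cases h1 : R.L p.1 ∧ R.L p.2
      · left
        rw [if_pos h1] at hp2
        exact mem_filter.2 ⟨mem_univ _, hp2, h1⟩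
      · rw [if_neg h1] at hp2
        by_cases h2 : ¬ R.L p.1 ∧ ¬ R.L p.2
        · rw [if_pos h2] at hp2
          right
          rw [mem_image]
          refine ⟨(R.th p.1, R.th p.2), mem_filter.2 ⟨mem_univ _, hp2, ?_, ?_⟩, ?_⟩
          · exact (R.half p.1).2 h2.1
          · exact (R.half p.2).2 h2.2
          · simp [R.invol]
        · rw [if_neg h2] at hp2
          exact absurd rfl hp2
    calc nz (hLft R g) = (U.filter (fun p => hLft R g p.1 p.2 ≠ 0)).card := rfl
      _ ≤ (A ∪ A.image (fun p : T × T => (R.th p.1, R.th p.2))).card := card_le_card hsub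
      _ ≤ A.card + (A.image (fun p : T × T => (R.th p.1, R.th p.2))).card := card_union_le _ _
      _ ≤ A.card + A.card := Nat.add_le_add_left card_image_le _
  have hR : nz (hRgt R g) ≤ B.card + B.card := by
    have hsub : U.filter (fun p => hRgt R g p.1 p.2 ≠ 0) ⊆
        B ∪ B.image (fun p : T × T => (R.th p.1, R.th p.2)) := by
      intro p hp
      rw [mem_filter] at hp
      have hp2 := hp.2
      rw [hRgt_eq] at hp2
      rw [mem_union]
      by_cases h1 : ¬ R.L p.1 ∧ ¬ R.L p.2
      · left
        rw [if_pos h1] at hp2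
        exact mem_filter.2 ⟨mem_univ _, hp2, h1⟩
      · rw [if_neg h1] at hp2
        by_cases h2 : R.L p.1 ∧ R.L p.2
        · rw [if_pos h2] at hp2
          right
          rw [mem_image]
          refine ⟨(R.th p.1, R.th p.2), mem_filter.2 ⟨mem_univ _, hp2, ?_, ?_⟩, ?_⟩
          · intro h
            exact (R.half p.1).1 h h2.1
          · intro h
            exact (R.half p.2).1 h h2.2
          · simp [R.invol]
        · rw [if_neg h2] at hp2
          exact absurd rfl hp2
    calc nz (hRgt R g) = (U.filter (fun p => hRgt R g p.1 p.2 ≠ 0)).card := rfl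
      _ ≤ (B ∪ B.image (fun p : T × T => (R.th p.1, R.th p.2))).card := card_le_card hsub
      _ ≤ B.card + (B.image (fun p : T × T => (R.th p.1, R.th p.2))).card := card_union_le _ _
      _ ≤ B.card + B.card := Nat.add_le_add_left card_image_le _
  have hZ : 1 ≤ Z.card := by
    rw [Nat.succ_le_iff, card_pos]
    refine ⟨(x, y), mem_filter.2 ⟨mem_univ _, hx, ?_, ?_⟩⟩
    · rintro ⟨h1, h2⟩
      simp only at h1 h2
      rw [hxy] at h2
      exact (R.half x).1 h2 h1
    · rintro ⟨h1, h2⟩
      simp only at h1 h2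
      rw [hxy] at h2
      exact h2 ((R.half x).2 h1)
  have hall : A.card + B.card + Z.card = nz g := by
    have e1 : (U.filter (fun p => g p.1 p.2 ≠ 0)) = A ∪ B ∪ Z := by
      ext p
      simp only [A, B, Z, U, mem_union, mem_filter, mem_univ, true_and]
      tauto
    have d1 : Disjoint A B := by
      rw [disjoint_left]
      intro p h1 h2
      exact (mem_filter.1 h2).2.2.1 (mem_filter.1 h1).2.2.1
    have d2 : Disjoint (A ∪ B) Z := by
      rw [disjoint_left]
      intro p h1 h2
      rcases mem_union.1 h1 with h1 | h1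
      · exact (mem_filter.1 h2).2.2.1 (mem_filter.1 h1).2.2
      · exact (mem_filter.1 h2).2.2.2 (mem_filter.1 h1).2.2
    calc A.card + B.card + Z.card = (A ∪ B ∪ Z).card := by
          rw [card_union_of_disjoint d2, card_union_of_disjoint d1]
      _ = nz g := by rw [← e1]; rfl
  omega

private theorem ZG_cut {adj : T → T → Prop} (S : C → ι → ℝ) (b : ℝ) (h : T → T → ι → ℝ) :
    ZG b adj S h = ZG b adj S (fun x y k => ind (adj x y) * h x y k) := by
  unfold ZG
  refine Finset.sum_congr rfl fun a _ => ?_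
  congr 3
  unfold gEn
  refine Finset.sum_congr rfl fun x _ => Finset.sum_congr rfl fun y _ => ?_
  by_cases hxy : adj x y
  · simp [ind, hxy]
  · simp [ind, hxy]

/-- Gaussian domination -/
theorem gauss_dom {adj : T → T → Prop} (hsym : ∀ x y, adj x y → adj y x) (hR : Reflective adj)
    (S : C → ι → ℝ) {b : ℝ} (hb : 0 < b) {h : T → T → ι → ℝ} (hh : Anti h) :
    ZG b adj S h ≤ ZG b adj S (fun _ _ _ => 0) := by
  classical
  rw [ZG_cut]
  set h' : T → T → ι → ℝ := fun x y k => ind (adj x y) * h x y k with hh'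
  let V : Set (ι → ℝ) := insert 0 (Set.range (fun p : T × T => h' p.1 p.2))
  have hVfin : V.Finite := (Set.finite_range _).insert 0
  have h0V : (0 : ι → ℝ) ∈ V := Set.mem_insert _ _
  have hmem : h' ∈ Fld adj V := by
    refine ⟨?_, ?_, ?_⟩
    · intro x y k
      simp only [hh']
      rw [hh x y k]
      by_cases hxy : adj x y
      · simp [ind, hxy, hsym x y hxy]
      · have : ¬ adj y x := fun hyx => hxy (hsym y x hyx)
        simp [ind, hxy, this]
    · intro x y hxy
      funext k
      simp [hh', ind, hxy]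
    · intro x y
      exact Set.mem_insert_of_mem _ ⟨(x, y), rfl⟩
  have hfin := fld_finite adj hVfin (T := T)
  obtain ⟨g0, hg0, hmax⟩ := Set.exists_max_image (Fld adj V) (fun g => ZG b adj S g) hfin ⟨h', hmem⟩
  -- the maximizers
  let Mx : Set (T → T → ι → ℝ) := {g | g ∈ Fld adj V ∧ ZG b adj S g0 ≤ ZG b adj S g}
  have hMfin : Mx.Finite := hfin.subset (fun g hg => hg.1)
  obtain ⟨g, hg, hmin⟩ := Set.exists_min_image Mx (fun g => nz g) hMfin ⟨g0, hg0, le_rfl⟩
  have hpos : ∀ g : T → T → ι → ℝ, 0 < ZG b adj S g := by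
    intro g
    unfold ZG
    exact Finset.sum_pos (fun a _ => Real.exp_pos _) ⟨fun _ => Classical.arbitrary C, mem_univ _⟩
  have hgz : g = fun _ _ _ => 0 := by
    by_contra hne
    have hex : ∃ x y, g x y ≠ 0 := by
      by_contra hcon
      push Not at hcon
      apply hne
      funext x y k
      rw [hcon x y]; rfl
    obtain ⟨x, y, hxy⟩ := hex
    have hadj : adj x y := by
      by_contra hn
      exact hxy (hg.1.2.1 x y hn)
    obtain ⟨R, hRxy⟩ := hR x y hadj
    have hineq := refl_ineq hsym R S hb.le hg.1.1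
    have hLm := fld_lft R h0V hg.1
    have hRm := fld_rgt R h0V hg.1
    have m1 : ZG b adj S (hLft R g) ≤ ZG b adj S g := (hmax _ hLm).trans hg.2
    have m2 : ZG b adj S (hRgt R g) ≤ ZG b adj S g := (hmax _ hRm).trans hg.2
    have pg := hpos g
    have pL := hpos (hLft R g)
    have pR := hpos (hRgt R g)
    have l1 : ZG b adj S g ≤ ZG b adj S (hLft R g) := by
      by_contra hc
      push Not at hc
      have : ZG b adj S (hLft R g) * ZG b adj S (hRgt R g) < ZG b adj S g ^ 2 := by
        nlinarith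
      linarith
    have l2 : ZG b adj S g ≤ ZG b adj S (hRgt R g) := by
      by_contra hc
      push Not at hc
      have : ZG b adj S (hLft R g) * ZG b adj S (hRgt R g) < ZG b adj S g ^ 2 := by
        nlinarith
      linarith
    have n1 := hmin (hLft R g) ⟨hLm, hg.2.trans l1⟩
    have n2 := hmin (hRgt R g) ⟨hRm, hg.2.trans l2⟩
    have n3 := nz_lt R g hxy hRxy
    omega
  calc ZG b adj S h' ≤ ZG b adj S g0 := hmax h' hmem
    _ ≤ ZG b adj S g := hg.2
    _ = ZG b adj S (fun _ _ _ => 0) := by rw [hgz]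

end FKB
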