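import Pool.Agent.IR.Defs

open Finset
noncomputable section
namespace FKB

private theorem psd_pow {α κ : Type*} [Fintype α] [Fintype κ] {a : ℝ} (ha : 0 ≤ a)
    (P : α → κ → ℝ) (n : ℕ) :
    ∀ u : α → ℝ, 0 ≤ ∑ s, ∑ t, u s * u t * (1 + a * ∑ k, P s k * P t k) ^ n := by
  induction n with
  | zero =>
    intro u
    have h : ∑ s, ∑ t, u s * u t * (1 + a * ∑ k, P s k * P t k) ^ 0 = (∑ s, u s) ^ 2 := by
      rw [sq, Finset.sum_mul_sum]
      simp
    rw [h]; exact sq_nonneg _
  | succ n ih =>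
    intro u
    have h : ∑ s, ∑ t, u s * u t * (1 + a * ∑ k, P s k * P t k) ^ (n + 1) =
        ∑ s, ∑ t, u s * u t * (1 + a * ∑ k, P s k * P t k) ^ n +
        a * ∑ k, ∑ s, ∑ t, (u s * P s k) * (u t * P t k) *
          (1 + a * ∑ k, P s k * P t k) ^ n := by
      have h1 : ∑ k, ∑ s, ∑ t, (u s * P s k) * (u t * P t k) *
          (1 + a * ∑ k, P s k * P t k) ^ n = ∑ s, ∑ t, ∑ k, (u s * P s k) * (u t * P t k) *
          (1 + a * ∑ k, P s k * P t k) ^ n := by
        rw [Finset.sum_comm]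
        exact Finset.sum_congr rfl fun s _ => Finset.sum_comm
      rw [h1, Finset.mul_sum, ← Finset.sum_add_distrib]
      refine Finset.sum_congr rfl fun s _ => ?_
      rw [Finset.mul_sum, ← Finset.sum_add_distrib]
      refine Finset.sum_congr rfl fun t _ => ?_
      rw [← Finset.sum_mul]
      have h2 : ∑ k, u s * P s k * (u t * P t k) = u s * u t * ∑ k, P s k * P t k := by
        rw [Finset.mul_sum]
        exact Finset.sum_congr rfl fun k _ => by ring
      rw [h2]; ring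
    rw [h]
    have h3 : 0 ≤ ∑ k, ∑ s, ∑ t, (u s * P s k) * (u t * P t k) *
          (1 + a * ∑ k, P s k * P t k) ^ n :=
      Finset.sum_nonneg fun k _ => ih (fun s => u s * P s k)
    have h4 := ih u
    have h5 := mul_nonneg ha h3
    linarith

private theorem psd_exp {α κ : Type*} [Fintype α] [Fintype κ] {c : ℝ} (hc : 0 ≤ c)
    (P : α → κ → ℝ) (u : α → ℝ) :
    0 ≤ ∑ s, ∑ t, u s * u t * Real.exp (c * ∑ k, P s k * P t k) := by
  have lim : Filter.Tendsto (fun n : ℕ => ∑ s, ∑ t, u s * u t *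
      (1 + (c * ∑ k, P s k * P t k) / n) ^ n) Filter.atTop
      (nhds (∑ s, ∑ t, u s * u t * Real.exp (c * ∑ k, P s k * P t k))) := by
    refine tendsto_finsetSum _ fun s _ => tendsto_finsetSum _ fun t _ => ?_
    exact (Real.tendsto_one_add_div_pow_exp _).const_mul _
  refine ge_of_tendsto' lim fun n => ?_
  have h := psd_pow (a := c / n) (div_nonneg hc (Nat.cast_nonneg n)) P n u
  refine h.trans (le_of_eq ?_)
  refine Finset.sum_congr rfl fun s _ => Finset.sum_congr rfl fun t _ => ?_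
  congr 3; ring

/-- the Gaussian kernel is positive semi-definite -/
private theorem psd_gauss {α κ : Type*} [Fintype α] [Fintype κ] {c : ℝ} (hc : 0 ≤ c)
    (P : α → κ → ℝ) (u : α → ℝ) :
    0 ≤ ∑ s, ∑ t, u s * u t * Real.exp (-(c * ∑ k, (P s k - P t k) ^ 2)) := by
  have h := psd_exp (c := 2 * c) (by linarith) P (fun s => u s * Real.exp (-(c * ∑ k, P s k ^ 2)))
  refine h.trans (le_of_eq ?_)
  refine Finset.sum_congr rfl fun s _ => Finset.sum_congr rfl fun t _ => ?_
  have e : ∑ k, (P s k - P t k) ^ 2 = ∑ k, P s k ^ 2 + ∑ k, P t k ^ 2 - 2 * ∑ k, P s k * P t k := by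
    rw [Finset.mul_sum, ← Finset.sum_add_distrib, ← Finset.sum_sub_distrib]
    exact Finset.sum_congr rfl fun k _ => by ring
  have e2 : -(c * ∑ k, (P s k - P t k) ^ 2) = -(c * ∑ k, P s k ^ 2) + -(c * ∑ k, P t k ^ 2) +
      2 * c * ∑ k, P s k * P t k := by rw [e]; ring
  rw [e2, Real.exp_add, Real.exp_add]; ring

/-- Cauchy-Schwarz inequality for the Gaussian kernel -/
theorem gauss_cs {α κ : Type*} [Fintype α] [Fintype κ] {c : ℝ} (hc : 0 ≤ c) (F G : α → ℝ)
    (P R : α → κ → ℝ) :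
    (∑ s, ∑ t, F s * G t * Real.exp (-(c * ∑ k, (P s k - R t k) ^ 2))) ^ 2 ≤
      (∑ s, ∑ t, F s * F t * Real.exp (-(c * ∑ k, (P s k - P t k) ^ 2))) *
        ∑ s, ∑ t, G s * G t * Real.exp (-(c * ∑ k, (R s k - R t k) ^ 2)) := by
  set A := ∑ s, ∑ t, F s * F t * Real.exp (-(c * ∑ k, (P s k - P t k) ^ 2)) with hA
  set B := ∑ s, ∑ t, F s * G t * Real.exp (-(c * ∑ k, (P s k - R t k) ^ 2)) with hB
  set C := ∑ s, ∑ t, G s * G t * Real.exp (-(c * ∑ k, (R s k - R t k) ^ 2)) with hC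
  have hB' : ∑ s, ∑ t, G s * F t * Real.exp (-(c * ∑ k, (R s k - P t k) ^ 2)) = B := by
    rw [hB, Finset.sum_comm]
    refine Finset.sum_congr rfl fun s _ => Finset.sum_congr rfl fun t _ => ?_
    have : ∑ k, (R t k - P s k) ^ 2 = ∑ k, (P s k - R t k) ^ 2 :=
      Finset.sum_congr rfl fun k _ => by ring
    rw [this]; ring
  have key : ∀ z : ℝ, 0 ≤ A * (z * z) + (2 * B) * z + C := by
    intro z
    have h := psd_gauss hc (Sum.elim P R : α ⊕ α → κ → ℝ) (Sum.elim (fun s => z * F s) G)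
    refine h.trans (le_of_eq ?_)
    simp only [Fintype.sum_sum_type, Sum.elim_inl, Sum.elim_inr, Finset.sum_add_distrib]
    have e1 : ∑ s, ∑ t, z * F s * (z * F t) * Real.exp (-(c * ∑ k, (P s k - P t k) ^ 2)) =
        A * (z * z) := by
      rw [hA, Finset.sum_mul]
      refine Finset.sum_congr rfl fun s _ => ?_
      rw [Finset.sum_mul]
      exact Finset.sum_congr rfl fun t _ => by ring
    have e2 : ∑ s, ∑ t, z * F s * G t * Real.exp (-(c * ∑ k, (P s k - R t k) ^ 2)) = B * z := by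
      rw [hB, Finset.sum_mul]
      refine Finset.sum_congr rfl fun s _ => ?_
      rw [Finset.sum_mul]
      exact Finset.sum_congr rfl fun t _ => by ring
    have e3 : ∑ s, ∑ t, G s * (z * F t) * Real.exp (-(c * ∑ k, (R s k - P t k) ^ 2)) = B * z := by
      rw [← hB', Finset.sum_mul]
      refine Finset.sum_congr rfl fun s _ => ?_
      rw [Finset.sum_mul]
      exact Finset.sum_congr rfl fun t _ => by ring
    rw [e1, e2, e3, ← hC]; ring
  have hd := discrim_le_zero key
  rw [discrim] at hd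
  nlinarith

end FKB
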