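import Pool.Agent.IR.GDom

open Finset
noncomputable section
namespace FKB

variable {T C ι : Type*} [Fintype T] [DecidableEq T] [Fintype C] [Nonempty C] [Fintype ι]

/-- abstract infrared bound (second order term of Gaussian domination) -/
theorem infra_abs {adj : T → T → Prop} (hsym : ∀ x y, adj x y → adj y x) (hR : Reflective adj)
    (S : C → ι → ℝ) {b : ℝ} (hb : 0 < b) {h : T → T → ι → ℝ} (hh : Anti h) :
    ∑ a : T → C, Real.exp (-(b * gEn adj S (fun _ _ _ => 0) a)) *
        (∑ x, ∑ y, ind (adj x y) * ∑ k, (S (a x) k - S (a y) k) * h x y k) ^ 2 ≤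
      (∑ x, ∑ y, ind (adj x y) * ∑ k, h x y k ^ 2) / (2 * b) *
        ZG b adj S (fun _ _ _ => 0) := by
  classical
  set W : (T → C) → ℝ := fun a => Real.exp (-(b * gEn adj S (fun _ _ _ => 0) a)) with hW
  set Y : (T → C) → ℝ := fun a =>
    ∑ x, ∑ y, ind (adj x y) * ∑ k, (S (a x) k - S (a y) k) * h x y k with hY
  set H : ℝ := ∑ x, ∑ y, ind (adj x y) * ∑ k, h x y k ^ 2 with hH
  set Z : ℝ := ZG b adj S (fun _ _ _ => 0) with hZ
  have hZW : Z = ∑ a, W a := rfl
  have hE : ∀ (l : ℝ) (a : T → C), gEn adj S (fun x y k => l * h x y k) a =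
      gEn adj S (fun _ _ _ => 0) a - 2 * l * Y a + l ^ 2 * H := by
    intro l a
    simp only [gEn, hY, hH, Finset.mul_sum, ← Finset.sum_sub_distrib, ← Finset.sum_add_distrib]
    refine Finset.sum_congr rfl fun x _ => Finset.sum_congr rfl fun y _ =>
      Finset.sum_congr rfl fun k _ => ?_
    ring
  have hD : ∀ l : ℝ, ∑ a, W a * Real.exp (2 * b * l * Y a) ≤ Real.exp (b * l ^ 2 * H) * Z := by
    intro l
    have hA : Anti (fun x y k => l * h x y k) := by
      intro x y k
      show l * h x y k = -(l * h y x k)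
      rw [hh x y k]; ring
    have h1 := gauss_dom hsym hR S hb hA
    have h2 : ∀ a, Real.exp (-(b * gEn adj S (fun x y k => l * h x y k) a)) =
        Real.exp (-(b * l ^ 2 * H)) * (W a * Real.exp (2 * b * l * Y a)) := by
      intro a
      rw [hW, ← Real.exp_add, ← Real.exp_add, hE]
      congr 1; ring
    have h3 : Real.exp (-(b * l ^ 2 * H)) * ∑ a, W a * Real.exp (2 * b * l * Y a) ≤ Z := by
      rw [Finset.mul_sum]
      calc _ = ∑ a, Real.exp (-(b * gEn adj S (fun x y k => l * h x y k) a)) :=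
            Finset.sum_congr rfl fun a _ => (h2 a).symm
        _ ≤ Z := h1
    calc ∑ a, W a * Real.exp (2 * b * l * Y a)
        = Real.exp (b * l ^ 2 * H) *
          (Real.exp (-(b * l ^ 2 * H)) * ∑ a, W a * Real.exp (2 * b * l * Y a)) := by
          rw [← mul_assoc, ← Real.exp_add]; simp
      _ ≤ Real.exp (b * l ^ 2 * H) * Z := mul_le_mul_of_nonneg_left h3 (Real.exp_pos _).le
  have hZ0 : 0 ≤ Z := by
    rw [hZW]; exact Finset.sum_nonneg fun a _ => (Real.exp_pos _).le
  have hH0 : 0 ≤ H := by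
    refine Finset.sum_nonneg fun x _ => Finset.sum_nonneg fun y _ => mul_nonneg (ind_nonneg _) ?_
    exact Finset.sum_nonneg fun k _ => sq_nonneg _
  -- the second order inequality
  have key : ∀ t : ℝ, 0 < t → 2 * b * ∑ a, W a * Y a ^ 2 ≤ H * Real.exp (t * H) * Z := by
    intro t ht
    set l := Real.sqrt (t / b) with hl
    have hl2 : b * l ^ 2 = t := by
      rw [hl, Real.sq_sqrt (div_nonneg ht.le hb.le)]; field_simp
    have e1 := hD l
    have e2 := hD (-l)
    have e3 : ∀ u : ℝ, 2 + u ^ 2 ≤ Real.exp u + Real.exp (-u) := by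
      intro u
      have h1 : Real.cosh u = 1 + 2 * Real.sinh (u / 2) ^ 2 := by
        have h2 := Real.cosh_two_mul (u / 2)
        have h3 := Real.cosh_sq (u / 2)
        rw [show 2 * (u / 2) = u by ring] at h2
        linarith
      have h4 : (u / 2) ^ 2 ≤ Real.sinh (u / 2) ^ 2 := by
        rcases le_total 0 (u / 2) with h | h
        · have := Real.self_le_sinh_iff.2 h
          exact pow_le_pow_left₀ h this 2
        · have h5 := Real.sinh_le_self_iff.2 h
          nlinarith
      rw [Real.cosh_eq] at h1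
      linarith
    have e4 : ∑ a, W a * (2 + (2 * b * l * Y a) ^ 2) ≤ 2 * (Real.exp (t * H) * Z) := by
      calc ∑ a, W a * (2 + (2 * b * l * Y a) ^ 2)
          ≤ ∑ a, W a * (Real.exp (2 * b * l * Y a) + Real.exp (-(2 * b * l * Y a))) :=
            Finset.sum_le_sum fun a _ => mul_le_mul_of_nonneg_left (e3 _) (Real.exp_pos _).le
        _ = ∑ a, W a * Real.exp (2 * b * l * Y a) + ∑ a, W a * Real.exp (2 * b * (-l) * Y a) := by
            rw [← Finset.sum_add_distrib]
            refine Finset.sum_congr rfl fun a _ => ?_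
            rw [mul_add]; congr 3; ring
        _ ≤ 2 * (Real.exp (t * H) * Z) := by
            have e5 : b * (-l) ^ 2 * H = t * H := by rw [neg_sq, hl2]
            rw [e5] at e2
            rw [hl2] at e1
            linarith
    have e6 : ∑ a, W a * (2 + (2 * b * l * Y a) ^ 2) = 2 * Z + 4 * b * t * ∑ a, W a * Y a ^ 2 := by
      rw [hZW, Finset.mul_sum, Finset.mul_sum, ← Finset.sum_add_distrib]
      refine Finset.sum_congr rfl fun a _ => ?_
      rw [← hl2]; ring
    have e7 : Real.exp (t * H) - 1 ≤ t * H * Real.exp (t * H) := by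
      have h1 := Real.add_one_le_exp (-(t * H))
      have h2 : Real.exp (-(t * H)) * Real.exp (t * H) = 1 := by
        rw [← Real.exp_add]; simp
      have h3 := mul_le_mul_of_nonneg_right h1 (Real.exp_pos (t * H)).le
      rw [h2] at h3
      linarith
    have e8 : 4 * b * t * ∑ a, W a * Y a ^ 2 ≤ 2 * (t * H * Real.exp (t * H)) * Z := by
      have := mul_le_mul_of_nonneg_right e7 hZ0
      rw [e6] at e4
      linarith
    have e9 : (2 * t) * (2 * b * ∑ a, W a * Y a ^ 2) ≤ (2 * t) * (H * Real.exp (t * H) * Z) := by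
      calc _ = 4 * b * t * ∑ a, W a * Y a ^ 2 := by ring
        _ ≤ _ := e8
        _ = _ := by ring
    exact le_of_mul_le_mul_left e9 (by linarith)
  have lim : Filter.Tendsto (fun t : ℝ => H * Real.exp (t * H) * Z) (nhdsWithin 0 (Set.Ioi 0))
      (nhds (H * Real.exp (0 * H) * Z)) := by
    refine Filter.Tendsto.mono_left ?_ nhdsWithin_le_nhds
    exact (Continuous.tendsto (by fun_prop) 0)
  have fin : 2 * b * ∑ a, W a * Y a ^ 2 ≤ H * Real.exp (0 * H) * Z := by
    refine ge_of_tendsto lim ?_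
    filter_upwards [self_mem_nhdsWithin] with t ht
    exact key t ht
  rw [zero_mul, Real.exp_zero, mul_one] at fin
  have h2b : (0 : ℝ) < 2 * b := by linarith
  rw [div_mul_eq_mul_div, le_div_iff₀ h2b]
  calc _ = 2 * b * ∑ a, W a * Y a ^ 2 := by ring
    _ ≤ _ := fin

end FKB
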