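import Pool.Agent.IR.Fin

open Finset MeasureTheory Filter
noncomputable section
namespace FKB

/-- all Potts models in dimension at least three, every `p` in `[0, 1]` -/
theorem final_int_all {d q : ℕ} (hd : 3 ≤ d) (hq : 2 ≤ q) {p : ℝ} (hp0 : 0 ≤ p) (hp1 : p ≤ 1) :
    (∃ μ : Measure (Set (Pt d × Pt d)), IsFreeLimit μ p (q : ℝ)) ∧
      ∀ μ : Measure (Set (Pt d × Pt d)), IsFreeLimit μ p (q : ℝ) →
        ∀ a b : ℕ → Pt d, Exhausts a b →
          Tendsto (fun m => phi0 (Finset.Icc (a m) (b m)) p (q : ℝ)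
            (toBoundary (Finset.Icc (a m) (b m)))) atTop (nhds (μ.real toInfinity)) := by
  have hd1 : 1 ≤ d := by omega
  have hq1 : (1 : ℝ) ≤ q := by
    have : 1 ≤ q := by omega
    exact_mod_cast this
  refine ⟨exists_freeLimit d hq1 hp0 hp1, fun μ hμ a b hab => ?_⟩
  rw [free_limit_th0 hd1 hq1 hp0 hp1 hμ]
  exact tendsto_of_low hd1 hq1 hp0 hp1 (fun ε hε => low_int hd hq hp0 hp1 hε) a b hab

end FKB
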