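import Pool.Agent.IR.Defs

open Finset
noncomputable section
namespace FKB

namespace Torus

theorem mem_tbox {d L : ℕ} {x : Pt d} : x ∈ tbox d L ↔ ∀ i, -(L : ℤ) ≤ x i ∧ x i ≤ (L : ℤ) - 1 := by
  unfold tbox
  rw [Finset.mem_Icc, Pi.le_def, Pi.le_def]
  constructor
  · intro h i
    exact ⟨h.1 i, h.2 i⟩
  · intro h
    exact ⟨fun i => (h i).1, fun i => (h i).2⟩

/-- `y` is the successor of `x` in direction `i` -/
def Nx (L : ℕ) {d : ℕ} (i : Fin d) (x y : Pt d) : Prop :=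
  (∀ j, j ≠ i → y j = x j) ∧ (y i = x i + 1 ∨ (x i = (L : ℤ) - 1 ∧ y i = -(L : ℤ)))

theorem mem_torE {d L : ℕ} {x y : Pt d} :
    (x, y) ∈ torE d L ↔ x ∈ tbox d L ∧ y ∈ tbox d L ∧ ∃ i, Nx L i x y := by
  unfold torE lat
  rw [Finset.mem_union, Finset.mem_filter, Finset.mem_filter, Finset.mem_product]
  constructor
  · rintro (⟨⟨h1, h2⟩, i, hi⟩ | ⟨⟨h1, h2⟩, i, hi, hi'⟩)
    · refine ⟨h1, h2, i, ?_, Or.inl ?_⟩
      · intro j hj
        have := congrFun hi j
        simpa [Pi.single_eq_of_ne hj] using this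
      · have := congrFun hi i
        simpa using this
    · refine ⟨h1, h2, i, ?_, Or.inr ⟨hi, ?_⟩⟩
      · intro j hj
        have := congrFun hi' j
        simpa [Pi.single_eq_of_ne hj] using this
      · have := congrFun hi' i
        simp only [Pi.sub_apply, Pi.single_eq_same] at this hi
        omega
  · rintro ⟨h1, h2, i, hj, h | ⟨h, h'⟩⟩
    · refine Or.inl ⟨⟨h1, h2⟩, i, ?_⟩
      funext j
      by_cases hji : j = i
      · subst hji
        simpa using h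
      · simpa [Pi.single_eq_of_ne hji] using hj j hji
    · refine Or.inr ⟨⟨h1, h2⟩, i, h, ?_⟩
      funext j
      by_cases hji : j = i
      · subst hji
        simp only [Pi.sub_apply, Pi.single_eq_same] at h ⊢
        omega
      · simpa [Pi.single_eq_of_ne hji] using hj j hji

end Torus

open Torus

theorem torE_verts (d L : ℕ) : Verts (torE d L) (tbox d L) := by
  rintro ⟨x, y⟩ h
  exact ⟨(mem_torE.1 h).1, (mem_torE.1 h).2.1⟩

/-- for side at least four an edge has only one orientation -/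
theorem torE_asymm {d L : ℕ} (hL : 2 ≤ L) {x y : Pt d} (h : (x, y) ∈ torE d L) :
    (y, x) ∉ torE d L := by
  intro h'
  obtain ⟨-, -, i, hi, hi'⟩ := mem_torE.1 h
  obtain ⟨-, -, j, hj, hj'⟩ := mem_torE.1 h'
  by_cases hij : i = j
  · subst hij
    omega
  · have := hj i hij
    omega

/-- sums over adjacent pairs are sums over edges -/
theorem tadj_sum {d L : ℕ} (hL : 2 ≤ L) (F : Pt d → Pt d → ℝ) :
    ∑ x : tbox d L, ∑ y : tbox d L, ind (tadj d L x y) * F x y =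
      ∑ e ∈ torE d L, (F e.1 e.2 + F e.2 e.1) := by
  classical
  have key : ∀ G : Pt d → Pt d → ℝ, ∑ x : tbox d L, ∑ y : tbox d L,
      ind (((x : Pt d), (y : Pt d)) ∈ torE d L) * G x y = ∑ e ∈ torE d L, G e.1 e.2 := by
    intro G
    have h1 : ∀ x : tbox d L, ∑ y : tbox d L, ind (((x : Pt d), (y : Pt d)) ∈ torE d L) * G x y =
        ∑ y ∈ tbox d L, ind (((x : Pt d), y) ∈ torE d L) * G x y := fun x =>
      Finset.sum_coe_sort (tbox d L) (fun y => ind (((x : Pt d), y) ∈ torE d L) * G x y)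
    rw [Finset.sum_congr rfl (fun x _ => h1 x)]
    rw [Finset.sum_coe_sort (tbox d L)
      (fun x => ∑ y ∈ tbox d L, ind ((x, y) ∈ torE d L) * G x y)]
    rw [← Finset.sum_product']
    have hsub : torE d L ⊆ tbox d L ×ˢ tbox d L := by
      intro e he
      exact Finset.mem_product.2 (torE_verts d L e he)
    rw [← Finset.sum_subset hsub]
    · refine Finset.sum_congr rfl fun e he => ?_
      rw [ind_true (show (e.1, e.2) ∈ torE d L from he), one_mul]
    · intro e _ he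
      rw [ind_false (show ¬ (e.1, e.2) ∈ torE d L from he), zero_mul]
  have h2 : ∀ x y : tbox d L, ind (tadj d L x y) * F x y =
      ind (((x : Pt d), (y : Pt d)) ∈ torE d L) * F x y +
      ind (((y : Pt d), (x : Pt d)) ∈ torE d L) * F x y := by
    intro x y
    unfold tadj
    by_cases hx : ((x : Pt d), (y : Pt d)) ∈ torE d L
    · rw [ind_true (Or.inl hx), ind_true hx, ind_false (torE_asymm hL hx)]
      ring
    · by_cases hy : ((y : Pt d), (x : Pt d)) ∈ torE d L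
      · rw [ind_true (Or.inr hy), ind_true hy, ind_false hx]
        ring
      · rw [ind_false (fun h => h.elim hx hy), ind_false hx, ind_false hy]
        ring
  simp_rw [h2, Finset.sum_add_distrib]
  rw [key F, Finset.sum_comm, key (fun x y => F y x)]

namespace Torus

/-- folding into the fundamental interval -/
def fold (L : ℕ) (t : ℤ) : ℤ :=
  if t < -(L : ℤ) then t + 2 * L else if (L : ℤ) ≤ t then t - 2 * L else t

/-- reflection of a coordinate -/
def rf (L : ℕ) (k t : ℤ) : ℤ := fold L (2 * k + 1 - t)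

theorem rf_mem {L : ℕ} {k t : ℤ} (hk : -(L : ℤ) ≤ k ∧ k ≤ (L : ℤ) - 1)
    (ht : -(L : ℤ) ≤ t ∧ t ≤ (L : ℤ) - 1) : -(L : ℤ) ≤ rf L k t ∧ rf L k t ≤ (L : ℤ) - 1 := by
  unfold rf fold
  split_ifs <;> omega

theorem rf_rf {L : ℕ} {k t : ℤ} (hk : -(L : ℤ) ≤ k ∧ k ≤ (L : ℤ) - 1)
    (ht : -(L : ℤ) ≤ t ∧ t ≤ (L : ℤ) - 1) : rf L k (rf L k t) = t := by
  unfold rf fold
  split_ifs <;> omega

/-- the half -/
def Hh (L : ℕ) (k t : ℤ) : Prop := (1 ≤ t - k ∧ t - k ≤ L) ∨ t - k ≤ -(L : ℤ)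

theorem Hh_rf {L : ℕ} {k t : ℤ} (hk : -(L : ℤ) ≤ k ∧ k ≤ (L : ℤ) - 1)
    (ht : -(L : ℤ) ≤ t ∧ t ≤ (L : ℤ) - 1) : Hh L k (rf L k t) ↔ ¬ Hh L k t := by
  unfold Hh rf fold
  split_ifs <;> omega

/-- successor relation of coordinates -/
def Sc (L : ℕ) (s t : ℤ) : Prop := t = s + 1 ∨ (s = (L : ℤ) - 1 ∧ t = -(L : ℤ))

theorem Sc_rf {L : ℕ} {k s t : ℤ} (hk : -(L : ℤ) ≤ k ∧ k ≤ (L : ℤ) - 1)
    (hs : -(L : ℤ) ≤ s ∧ s ≤ (L : ℤ) - 1) (ht : -(L : ℤ) ≤ t ∧ t ≤ (L : ℤ) - 1)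
    (h : Sc L s t) : Sc L (rf L k t) (rf L k s) := by
  unfold Sc at h ⊢
  unfold rf fold
  rcases h with h | h <;> split_ifs <;> omega

theorem Sc_cross {L : ℕ} (hL : 2 ≤ L) {k s t : ℤ} (hk : -(L : ℤ) ≤ k ∧ k ≤ (L : ℤ) - 1)
    (hs : -(L : ℤ) ≤ s ∧ s ≤ (L : ℤ) - 1) (ht : -(L : ℤ) ≤ t ∧ t ≤ (L : ℤ) - 1)
    (h : Sc L s t ∨ Sc L t s) (h1 : Hh L k s) (h2 : ¬ Hh L k t) : t = rf L k s := by
  unfold Sc at h
  unfold Hh at h1 h2
  unfold rf fold
  rcases h with (h | h) | (h | h) <;> split_ifs <;> omega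

theorem rf_self {L : ℕ} {k t : ℤ} (hk : -(L : ℤ) ≤ k ∧ k ≤ (L : ℤ) - 1)
    (ht : -(L : ℤ) ≤ t ∧ t ≤ (L : ℤ) - 1) (h : Sc L k t) : rf L k k = t := by
  unfold Sc at h
  unfold rf fold
  rcases h with h | h <;> split_ifs <;> omega

variable {d L : ℕ}

/-- reflection of a point -/
def rfP (L : ℕ) (i : Fin d) (k : ℤ) (z : Pt d) : Pt d := Function.update z i (rf L k (z i))

theorem rfP_same (i : Fin d) (k : ℤ) (z : Pt d) : rfP L i k z i = rf L k (z i) := by
  simp [rfP]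

theorem rfP_ne {i j : Fin d} (h : j ≠ i) (k : ℤ) (z : Pt d) : rfP L i k z j = z j := by
  simp [rfP, Function.update_of_ne h]

theorem rfP_mem {i : Fin d} {k : ℤ} (hk : -(L : ℤ) ≤ k ∧ k ≤ (L : ℤ) - 1) {z : Pt d}
    (hz : z ∈ tbox d L) : rfP L i k z ∈ tbox d L := by
  rw [mem_tbox] at hz ⊢
  intro j
  by_cases h : j = i
  · subst h
    rw [rfP_same]
    exact rf_mem hk (hz j)
  · rw [rfP_ne h]
    exact hz j

theorem rfP_rfP {i : Fin d} {k : ℤ} (hk : -(L : ℤ) ≤ k ∧ k ≤ (L : ℤ) - 1) {z : Pt d}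
    (hz : z ∈ tbox d L) : rfP L i k (rfP L i k z) = z := by
  funext j
  by_cases h : j = i
  · subst h
    rw [rfP_same, rfP_same]
    exact rf_rf hk (mem_tbox.1 hz j)
  · rw [rfP_ne h, rfP_ne h]

theorem rfP_adj {i : Fin d} {k : ℤ} (hk : -(L : ℤ) ≤ k ∧ k ≤ (L : ℤ) - 1) {z w : Pt d}
    (h : (z, w) ∈ torE d L) : (rfP L i k z, rfP L i k w) ∈ torE d L ∨
      (rfP L i k w, rfP L i k z) ∈ torE d L := by
  obtain ⟨hz, hw, j, hj, hj'⟩ := mem_torE.1 h
  by_cases hij : j = i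
  · subst hij
    right
    refine mem_torE.2 ⟨rfP_mem hk hw, rfP_mem hk hz, j, ?_, ?_⟩
    · intro l hl
      rw [rfP_ne hl, rfP_ne hl, hj l hl]
    · rw [rfP_same, rfP_same]
      exact Sc_rf hk (mem_tbox.1 hz j) (mem_tbox.1 hw j) hj'
  · left
    refine mem_torE.2 ⟨rfP_mem hk hz, rfP_mem hk hw, j, ?_, ?_⟩
    · intro l hl
      by_cases hli : l = i
      · subst hli
        rw [rfP_same, rfP_same, hj l hl]
      · rw [rfP_ne hli, rfP_ne hli, hj l hl]
    · rw [rfP_ne hij, rfP_ne hij]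
      exact hj'

/-- the reflection of the torus -/
def refl (hL : 2 ≤ L) (i : Fin d) (k : ℤ) (hk : -(L : ℤ) ≤ k ∧ k ≤ (L : ℤ) - 1) :
    GRefl (tadj d L) where
  th := fun z => ⟨rfP L i k z, rfP_mem hk z.2⟩
  L := fun z => Hh L k ((z : Pt d) i)
  invol := fun z => Subtype.ext (rfP_rfP hk z.2)
  aut := by
    rintro x y (h | h)
    · exact rfP_adj hk h
    · exact (rfP_adj hk h).symm
  half := by
    intro z
    show Hh L k (rfP L i k z i) ↔ _
    rw [rfP_same]
    exact Hh_rf hk (mem_tbox.1 z.2 i)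
  cross := by
    intro x y hxy hx hy
    have hne : (x : Pt d) i ≠ (y : Pt d) i := by
      intro h
      rw [h] at hx
      exact hy hx
    apply Subtype.ext
    show (y : Pt d) = rfP L i k x
    rcases hxy with h | h
    · obtain ⟨-, -, j, hj, hj'⟩ := mem_torE.1 h
      have hji : j = i := by
        by_contra hcon
        exact hne (hj i (Ne.symm hcon)).symm
      subst hji
      funext l
      by_cases hl : l = j
      · subst hl
        rw [rfP_same]
        exact Sc_cross hL hk (mem_tbox.1 x.2 l) (mem_tbox.1 y.2 l) (Or.inl hj') hx hy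
      · rw [rfP_ne hl]
        exact hj l hl
    · obtain ⟨-, -, j, hj, hj'⟩ := mem_torE.1 h
      have hji : j = i := by
        by_contra hcon
        exact hne (hj i (Ne.symm hcon))
      subst hji
      funext l
      by_cases hl : l = j
      · subst hl
        rw [rfP_same]
        exact Sc_cross hL hk (mem_tbox.1 x.2 l) (mem_tbox.1 y.2 l) (Or.inr hj') hx hy
      · rw [rfP_ne hl]
        exact (hj l hl).symm

theorem refl_swap (hL : 2 ≤ L) {x y : tbox d L} (h : ((x : Pt d), (y : Pt d)) ∈ torE d L) :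
    ∃ R : GRefl (tadj d L), y = R.th x := by
  obtain ⟨-, -, i, hi, hi'⟩ := mem_torE.1 h
  have hk := mem_tbox.1 x.2 i
  refine ⟨refl hL i ((x : Pt d) i) hk, Subtype.ext ?_⟩
  show (y : Pt d) = rfP L i ((x : Pt d) i) x
  funext l
  by_cases hl : l = i
  · subst hl
    rw [rfP_same]
    exact (rf_self hk (mem_tbox.1 y.2 l) hi').symm
  · rw [rfP_ne hl]
    exact hi l hl

end Torus

/-- every edge of the torus is reversed by a reflection -/
theorem tor_reflective {d L : ℕ} (hL : 2 ≤ L) : Reflective (tadj d L) := by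
  rintro x y (h | h)
  · exact refl_swap hL h
  · obtain ⟨R, hR⟩ := refl_swap hL h
    exact ⟨R, by rw [hR, R.invol]⟩

end FKB
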