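import Pool.Agent.IR.Infra
import Pool.Agent.IR.Torus

open Finset
noncomputable section
namespace FKB

section PottsAux
variable {q : ℕ} [NeZero q]

/-- the spin vectors -/
private def pS (q : ℕ) [NeZero q] (c k : ZMod (2 * q)) : ℝ := ind (2 * c = k)

private lemma pS_sum (c : ZMod (2 * q)) (v : ZMod (2 * q) → ℝ) :
    ∑ k, pS q c k * v k = v (2 * c) := by
  rw [Finset.sum_eq_single (2 * c)]
  · rw [pS, ind_true rfl, one_mul]
  · intro k _ hk
    rw [pS, ind_false (fun h => hk h.symm), zero_mul]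
  · intro h
    exact absurd (Finset.mem_univ _) h

private lemma pS_sq (c c' : ZMod (2 * q)) :
    ∑ k, (pS q c k - pS q c' k - 0) ^ 2 = 2 * (1 - ind (2 * (c - c') = 0)) := by
  have h1 : ∀ k, (pS q c k - pS q c' k - 0) ^ 2 =
      pS q c k * pS q c k - 2 * (pS q c k * pS q c' k) + pS q c' k * pS q c' k := by
    intro k
    ring
  rw [Finset.sum_congr rfl fun k _ => h1 k, Finset.sum_add_distrib, Finset.sum_sub_distrib,
    ← Finset.mul_sum, pS_sum, pS_sum, pS_sum]
  have h2 : pS q c (2 * c) = 1 := ind_true rfl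
  have h3 : pS q c' (2 * c') = 1 := ind_true rfl
  have h4 : pS q c' (2 * c) = ind (2 * (c - c') = 0) := by
    unfold pS
    apply ind_congr
    rw [mul_sub, sub_eq_zero]
    exact eq_comm
  rw [h2, h3, h4]
  ring

omit [NeZero q] in
private lemma dq_symm {V : Type*} [DecidableEq V] (S : Finset V) (x y : V) (a : Sp q S) :
    dq q S (y, x) a = dq q S (x, y) a := by
  unfold dq
  apply ind_congr
  simp only
  rw [mul_sub, mul_sub, sub_eq_zero, sub_eq_zero]
  exact eq_comm

private lemma potts_weight {d L : ℕ} (hL : 2 ≤ L) {p : ℝ} (hp1 : p < 1)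
    (a : tbox d L → ZMod (2 * q)) :
    Real.exp (-(-Real.log (1 - p) / 4 * gEn (tadj d L) (pS q) (fun _ _ _ => 0) a)) =
      swq q (torE d L) (fun _ => p) (tbox d L) (fun _ => 0) a := by
  have h1 : gEn (tadj d L) (pS q) (fun _ _ _ => 0) a =
      ∑ e ∈ torE d L, 4 * (1 - dq q (tbox d L) e a) := by
    unfold gEn
    have h2 := tadj_sum hL (fun x y : Pt d => 2 * (1 - dq q (tbox d L) (x, y) a))
    have h3 : ∀ x y : tbox d L, ind (tadj d L x y) *
        ∑ k, (pS q (a x) k - pS q (a y) k - 0) ^ 2 =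
        ind (tadj d L x y) * (2 * (1 - dq q (tbox d L) ((x : Pt d), (y : Pt d)) a)) := by
      intro x y
      rw [pS_sq]
      unfold dq
      rw [Rep_ex_coe, Rep_ex_coe]
    simp only [h3]
    refine h2.trans (Finset.sum_congr rfl fun e _ => ?_)
    rw [dq_symm]
    ring
  rw [h1]
  unfold swq
  have h4 : ∑ x ∈ tbox d L, (fun _ : Pt d => (0 : ℝ)) x * cs q (tbox d L) x a = 0 := by
    refine Finset.sum_eq_zero fun x _ => ?_
    simp
  rw [h4, Real.exp_zero, mul_one]
  have h5 : -(-Real.log (1 - p) / 4 * ∑ e ∈ torE d L, 4 * (1 - dq q (tbox d L) e a)) =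
      ∑ e ∈ torE d L, Real.log (1 - p) * (1 - dq q (tbox d L) e a) := by
    rw [Finset.mul_sum, ← Finset.sum_neg_distrib]
    refine Finset.sum_congr rfl fun e _ => ?_
    ring
  rw [h5, Real.exp_sum]
  refine Finset.prod_congr rfl fun e _ => ?_
  rcases ind_zero_or_one (2 * (ex q (tbox d L) e.1 a - ex q (tbox d L) e.2 a) = 0) with h | h
  · have h6 : dq q (tbox d L) e a = 0 := h
    rw [h6, sub_zero, mul_one, mul_zero, add_zero, Real.exp_log (by linarith)]
  · have h6 : dq q (tbox d L) e a = 1 := h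
    rw [h6, sub_self, mul_zero, Real.exp_zero]
    ring

private lemma potts_one {d L : ℕ} (hL : 2 ≤ L) {b : ℝ} (hb : 0 < b)
    (f : Pt d × Pt d → ℝ) (g : Pt d → ℝ)
    (hfg : ∀ r : Pt d → ℝ, ∑ e ∈ torE d L, f e * (r e.1 - r e.2) = ∑ x ∈ tbox d L, g x * r x)
    (v : ZMod (2 * q) → ℝ) :
    ∑ a : tbox d L → ZMod (2 * q),
      Real.exp (-(b * gEn (tadj d L) (pS q) (fun _ _ _ => 0) a)) *
        (2 * ∑ x ∈ tbox d L, g x * v (2 * ex q (tbox d L) x a)) ^ 2 ≤
      (2 * (∑ e ∈ torE d L, f e ^ 2) * ∑ k, v k ^ 2) / (2 * b) *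
        ZG b (tadj d L) (pS q) (fun _ _ _ => 0) := by
  have hsym : ∀ x y : tbox d L, tadj d L x y → tadj d L y x := fun x y h => h.symm
  set Fh : Pt d → Pt d → ℝ := fun x y =>
    f (x, y) * ind ((x, y) ∈ torE d L) - f (y, x) * ind ((y, x) ∈ torE d L) with hFh
  have hF1 : ∀ e ∈ torE d L, Fh e.1 e.2 = f e := by
    intro e he
    have h1 : (e.1, e.2) ∈ torE d L := he
    have h2 : (e.2, e.1) ∉ torE d L := torE_asymm hL h1
    simp only [hFh]
    rw [ind_true h1, ind_false h2, mul_one, mul_zero, sub_zero]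
  have hF2 : ∀ x y, Fh y x = -Fh x y := by
    intro x y
    simp only [hFh]
    ring
  have key := infra_abs (adj := tadj d L) hsym (tor_reflective hL) (pS q) hb
    (h := fun x y k => Fh (x : Pt d) (y : Pt d) * v k) (by
      intro x y k
      show Fh (x : Pt d) (y : Pt d) * v k = -(Fh (y : Pt d) (x : Pt d) * v k)
      rw [hF2]
      ring)
  have e1 : ∀ a : tbox d L → ZMod (2 * q),
      (∑ x : tbox d L, ∑ y : tbox d L, ind (tadj d L x y) *
        ∑ k, (pS q (a x) k - pS q (a y) k) * (Fh (x : Pt d) (y : Pt d) * v k)) =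
      2 * ∑ x ∈ tbox d L, g x * v (2 * ex q (tbox d L) x a) := by
    intro a
    have h2 := tadj_sum hL (fun x y : Pt d =>
      Fh x y * (v (2 * ex q (tbox d L) x a) - v (2 * ex q (tbox d L) y a)))
    have h3 : ∀ x y : tbox d L, ind (tadj d L x y) *
        ∑ k, (pS q (a x) k - pS q (a y) k) * (Fh (x : Pt d) (y : Pt d) * v k) =
        ind (tadj d L x y) * (Fh (x : Pt d) (y : Pt d) *
          (v (2 * ex q (tbox d L) (x : Pt d) a) - v (2 * ex q (tbox d L) (y : Pt d) a))) := by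
      intro x y
      have h4 : ∀ k, (pS q (a x) k - pS q (a y) k) * (Fh (x : Pt d) (y : Pt d) * v k) =
          Fh (x : Pt d) (y : Pt d) * (pS q (a x) k * v k) -
            Fh (x : Pt d) (y : Pt d) * (pS q (a y) k * v k) := by
        intro k
        ring
      rw [Finset.sum_congr rfl fun k _ => h4 k, Finset.sum_sub_distrib, ← Finset.mul_sum,
        ← Finset.mul_sum, pS_sum, pS_sum, Rep_ex_coe, Rep_ex_coe]
      ring
    simp only [h3]
    refine h2.trans ?_
    rw [← hfg (fun x => v (2 * ex q (tbox d L) x a)), Finset.mul_sum]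
    refine Finset.sum_congr rfl fun e he => ?_
    rw [hF2 e.1 e.2, hF1 e he]
    ring
  have e2 : (∑ x : tbox d L, ∑ y : tbox d L, ind (tadj d L x y) *
        ∑ k, (Fh (x : Pt d) (y : Pt d) * v k) ^ 2) =
      2 * (∑ e ∈ torE d L, f e ^ 2) * ∑ k, v k ^ 2 := by
    have h2 := tadj_sum hL (fun x y : Pt d => Fh x y ^ 2 * ∑ k, v k ^ 2)
    have h3 : ∀ x y : tbox d L, ind (tadj d L x y) *
        ∑ k, (Fh (x : Pt d) (y : Pt d) * v k) ^ 2 =
        ind (tadj d L x y) * (Fh (x : Pt d) (y : Pt d) ^ 2 * ∑ k, v k ^ 2) := by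
      intro x y
      rw [Finset.mul_sum (s := Finset.univ) (f := fun k => v k ^ 2)]
      congr 1
      refine Finset.sum_congr rfl fun k _ => ?_
      ring
    simp only [h3]
    refine h2.trans ?_
    rw [Finset.mul_sum (s := torE d L), Finset.sum_mul]
    refine Finset.sum_congr rfl fun e he => ?_
    rw [hF2 e.1 e.2, hF1 e he]
    ring
  simp only [e1, e2] at key
  exact key

private lemma potts_re_im (s t : ZMod (2 * q)) :
    (ZMod.stdAddChar s).re * (ZMod.stdAddChar t).re +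
      (ZMod.stdAddChar s).im * (ZMod.stdAddChar t).im = ch q (s - t) := by
  unfold ch
  rw [sub_eq_add_neg, AddChar.map_add_eq_mul, AddChar.map_neg_eq_conj,
    Complex.mul_re, Complex.conj_re, Complex.conj_im]
  ring

private lemma potts_norm : ∑ k : ZMod (2 * q), ((ZMod.stdAddChar k).re ^ 2 +
    (ZMod.stdAddChar k).im ^ 2) = 2 * q := by
  have h1 : ∀ k : ZMod (2 * q), (ZMod.stdAddChar k).re ^ 2 + (ZMod.stdAddChar k).im ^ 2 = 1 := by
    intro k
    have h2 := potts_re_im k k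
    rw [sub_self] at h2
    have h3 : ch q 0 = 1 := by
      unfold ch
      rw [AddChar.map_zero_eq_one]
      simp
    rw [h3] at h2
    linarith
  rw [Finset.sum_congr rfl fun k _ => h1 k]
  simp [ZMod.card]

private lemma potts_quad {V : Type*} [DecidableEq V] (S : Finset V) (g : V → ℝ) (a : Sp q S) :
    (2 * ∑ x ∈ S, g x * (ZMod.stdAddChar (2 * ex q S x a)).re) ^ 2 +
      (2 * ∑ x ∈ S, g x * (ZMod.stdAddChar (2 * ex q S x a)).im) ^ 2 =
    4 * ∑ x ∈ S, ∑ y ∈ S, g x * g y * c2 q S x y a := by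
  have h1 : ∀ r : V → ℝ, (2 * ∑ x ∈ S, g x * r x) ^ 2 =
      4 * ∑ x ∈ S, ∑ y ∈ S, g x * g y * (r x * r y) := by
    intro r
    rw [mul_pow, sq (∑ x ∈ S, g x * r x), Finset.sum_mul_sum]
    norm_num
    refine Finset.sum_congr rfl fun x _ => Finset.sum_congr rfl fun y _ => ?_
    ring
  rw [h1, h1, ← mul_add, ← Finset.sum_add_distrib]
  congr 1
  refine Finset.sum_congr rfl fun x _ => ?_
  rw [← Finset.sum_add_distrib]
  refine Finset.sum_congr rfl fun y _ => ?_
  rw [← mul_add, potts_re_im]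
  unfold c2
  rw [mul_sub]

end PottsAux

/-- infrared bound for the random-cluster model on the torus, integer `q ≥ 2`: `g` is the
divergence of the flow `f` -/
theorem infra_P {d L q : ℕ} (hL : 2 ≤ L) (hq : 2 ≤ q) {p : ℝ} (hp0 : 0 < p) (hp1 : p < 1)
    (f : Pt d × Pt d → ℝ) (g : Pt d → ℝ)
    (hfg : ∀ r : Pt d → ℝ, ∑ e ∈ torE d L, f e * (r e.1 - r e.2) = ∑ x ∈ tbox d L, g x * r x) :
    (∑ x ∈ tbox d L, ∑ y ∈ tbox d L,
        g x * g y * P (torE d L) (fun _ => p) q (fun A => Conn A x y)) * (-Real.log (1 - p)) ≤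
      2 * (2 * q) * ∑ e ∈ torE d L, f e ^ 2 := by
  have : NeZero q := ⟨by omega⟩
  have hβ : 0 < -Real.log (1 - p) := by
    have := Real.log_neg (by linarith : (0 : ℝ) < 1 - p) (by linarith)
    linarith
  have hb : 0 < -Real.log (1 - p) / 4 := by positivity
  have hadm : Adm (torE d L) (fun _ => p) := fun e _ => ⟨hp0.le, hp1.le⟩
  have h1 := potts_one (q := q) hL hb f g hfg (fun k => (ZMod.stdAddChar k).re)
  have h2 := potts_one (q := q) hL hb f g hfg (fun k => (ZMod.stdAddChar k).im)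
  have hZG : ZG (-Real.log (1 - p) / 4) (tadj d L) (pS q) (fun _ _ _ => 0) =
      ZS q (torE d L) (fun _ => p) (tbox d L) (fun _ => 0) := by
    unfold ZG ZS
    exact Finset.sum_congr rfl fun a _ => potts_weight hL hp1 a
  rw [hZG] at h1 h2
  have hZ : 0 < ZS q (torE d L) (fun _ => p) (tbox d L) (fun _ => 0) := ZS_pos hadm _ _
  simp only [potts_weight hL hp1] at h1 h2
  have h3 := add_le_add h1 h2
  rw [← Finset.sum_add_distrib] at h3
  have h4 : ∀ a : tbox d L → ZMod (2 * q),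
      swq q (torE d L) (fun _ => p) (tbox d L) (fun _ => 0) a *
        (2 * ∑ x ∈ tbox d L, g x * (ZMod.stdAddChar (2 * ex q (tbox d L) x a)).re) ^ 2 +
      swq q (torE d L) (fun _ => p) (tbox d L) (fun _ => 0) a *
        (2 * ∑ x ∈ tbox d L, g x * (ZMod.stdAddChar (2 * ex q (tbox d L) x a)).im) ^ 2 =
      ∑ x ∈ tbox d L, ∑ y ∈ tbox d L, 4 * (g x * g y *
        (swq q (torE d L) (fun _ => p) (tbox d L) (fun _ => 0) a * c2 q (tbox d L) x y a)) := by
    intro a
    rw [← mul_add, potts_quad, ← mul_assoc, Finset.mul_sum]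
    refine Finset.sum_congr rfl fun x _ => ?_
    rw [Finset.mul_sum]
    refine Finset.sum_congr rfl fun y _ => ?_
    ring
  rw [Finset.sum_congr rfl fun a _ => h4 a] at h3
  have h5 : ∑ a : tbox d L → ZMod (2 * q), ∑ x ∈ tbox d L, ∑ y ∈ tbox d L, 4 * (g x * g y *
        (swq q (torE d L) (fun _ => p) (tbox d L) (fun _ => 0) a * c2 q (tbox d L) x y a)) =
      4 * (∑ x ∈ tbox d L, ∑ y ∈ tbox d L,
        g x * g y * P (torE d L) (fun _ => p) q (fun A => Conn A x y)) *
        ZS q (torE d L) (fun _ => p) (tbox d L) (fun _ => 0) := by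
    rw [Finset.sum_comm, Finset.mul_sum, Finset.sum_mul]
    refine Finset.sum_congr rfl fun x hx => ?_
    rw [Finset.sum_comm, Finset.mul_sum, Finset.sum_mul]
    refine Finset.sum_congr rfl fun y hy => ?_
    rw [← SE_c2_zero hq hadm (torE_verts d L) hx hy, ← Finset.mul_sum, ← Finset.mul_sum]
    unfold SE
    field_simp
  rw [h5] at h3
  have h6 : (2 * (∑ e ∈ torE d L, f e ^ 2) * ∑ k : ZMod (2 * q), (ZMod.stdAddChar k).re ^ 2) /
        (2 * (-Real.log (1 - p) / 4)) *
        ZS q (torE d L) (fun _ => p) (tbox d L) (fun _ => 0) +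
      (2 * (∑ e ∈ torE d L, f e ^ 2) * ∑ k : ZMod (2 * q), (ZMod.stdAddChar k).im ^ 2) /
        (2 * (-Real.log (1 - p) / 4)) *
        ZS q (torE d L) (fun _ => p) (tbox d L) (fun _ => 0) =
      (4 * (∑ e ∈ torE d L, f e ^ 2) * (2 * q) / -Real.log (1 - p)) *
        ZS q (torE d L) (fun _ => p) (tbox d L) (fun _ => 0) := by
    rw [← potts_norm (q := q), Finset.sum_add_distrib]
    have hne : Real.log (1 - p) ≠ 0 := by
      intro h
      rw [h] at hβ
      simp at hβ
    field_simp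
    ring
  rw [h6] at h3
  have h7 := le_of_mul_le_mul_right h3 hZ
  rw [le_div_iff₀ hβ] at h7
  have h8 : 0 ≤ ∑ e ∈ torE d L, f e ^ 2 := Finset.sum_nonneg fun e _ => sq_nonneg _
  have h9 : (0 : ℝ) ≤ 2 * q * ∑ e ∈ torE d L, f e ^ 2 := by positivity
  nlinarith [h7, h9]

end FKB
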