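import Pool.Agent.IR.Gauss

open Finset
noncomputable section
namespace FKB

variable {T C ι : Type*} [Fintype T] [DecidableEq T] [Fintype C] [Fintype ι]

namespace RefIneq

/-- the first half -/
abbrev Hf {adj : T → T → Prop} (R : GRefl adj) : Type _ := {x : T // R.L x}

noncomputable instance instFintypeHf {adj : T → T → Prop} (R : GRefl adj) : Fintype (Hf R) := by
  classical exact inferInstance

noncomputable instance instDecEqHf {adj : T → T → Prop} (R : GRefl adj) : DecidableEq (Hf R) := by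
  classical exact inferInstance

/-- gluing of two half configurations -/
def glue {adj : T → T → Prop} (R : GRefl adj) (α β : Hf R → C) : T → C := by
  classical
  exact fun x => if hx : R.L x then α ⟨x, hx⟩ else β ⟨R.th x, (R.half x).2 hx⟩

theorem glue_L {adj : T → T → Prop} (R : GRefl adj) (α β : Hf R → C) (x : Hf R) :
    glue R α β x = α x := by
  simp [glue, x.2]

theorem glue_R {adj : T → T → Prop} (R : GRefl adj) (α β : Hf R → C) (x : Hf R) :
    glue R α β (R.th x) = β x := by
  have h1 : ¬ R.L (R.th x) := fun h => ((R.half x).1 h) x.2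
  have h2 : (⟨R.th (R.th x), (R.half (R.th x)).2 h1⟩ : Hf R) = x := Subtype.ext (R.invol x)
  simp only [glue, h1, dite_false]
  rw [h2]

/-- the equivalence given by gluing -/
def glueEquiv {adj : T → T → Prop} (R : GRefl adj) : (Hf R → C) × (Hf R → C) ≃ (T → C) where
  toFun p := glue R p.1 p.2
  invFun a := (fun x => a x, fun x => a (R.th x))
  left_inv p := by
    ext x
    · exact glue_L R p.1 p.2 x
    · exact glue_R R p.1 p.2 x
  right_inv a := by
    funext x
    by_cases hx : R.L x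
    · exact glue_L R _ _ (⟨x, hx⟩ : Hf R)
    · have := glue_R R (fun x : Hf R => a x) (fun x : Hf R => a (R.th x)) ⟨R.th x, (R.half x).2 hx⟩
      simpa [R.invol] using this

theorem sum_split {adj : T → T → Prop} (R : GRefl adj) (f : T → ℝ) :
    ∑ x, f x = ∑ x : Hf R, f x + ∑ x : Hf R, f (R.th x) := by
  classical
  have h1 : ∑ x : Hf R, f x = ∑ x with R.L x, f x := by
    rw [Finset.sum_subtype (Finset.univ.filter R.L) (p := R.L) (by simp) f]
  have h2 : ∑ x : Hf R, f (R.th x) = ∑ x with R.L x, f (R.th x) := by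
    rw [Finset.sum_subtype (Finset.univ.filter R.L) (p := R.L) (by simp) (fun x => f (R.th x))]
  have h3 : ∑ x with R.L x, f (R.th x) = ∑ x with ¬ R.L x, f x := by
    refine Finset.sum_bij (fun x _ => R.th x) ?_ ?_ ?_ ?_
    · intro x hx
      simp only [Finset.mem_filter, Finset.mem_univ, true_and] at hx ⊢
      exact fun h => ((R.half x).1 h) hx
    · intro x _ y _ h
      rw [← R.invol x, h, R.invol]
    · intro x hx
      simp only [Finset.mem_filter, Finset.mem_univ, true_and] at hx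
      exact ⟨R.th x, by simp [(R.half x).2 hx], R.invol x⟩
    · intro x _
      rfl
  rw [h1, h2, h3, Finset.sum_filter_add_sum_filter_not]

/-- energy inside a half -/
def Ein {adj : T → T → Prop} (R : GRefl adj) (S : C → ι → ℝ) (φ : Hf R → Hf R → ι → ℝ)
    (α : Hf R → C) : ℝ :=
  ∑ x : Hf R, ∑ y : Hf R, ind (adj x y) * ∑ k, (S (α x) k - S (α y) k - φ x y k) ^ 2

/-- crossing energy -/
def Ecr {adj : T → T → Prop} (R : GRefl adj) (S : C → ι → ℝ) (ψ : Hf R → ι → ℝ)
    (α β : Hf R → C) : ℝ :=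
  ∑ x : Hf R, ind (adj x (R.th x)) * ∑ k, (S (α x) k - ψ x k - S (β x) k) ^ 2

theorem gEn_glue {adj : T → T → Prop} (hsym : ∀ x y, adj x y → adj y x) (R : GRefl adj)
    (S : C → ι → ℝ) {h : T → T → ι → ℝ} (hh : Anti h) (α β : Hf R → C) :
    gEn adj S h (glue R α β) =
      Ein R S (fun x y k => h x y k) α + Ein R S (fun x y k => h (R.th x) (R.th y) k) β
        + 2 * Ecr R S (fun x k => h x (R.th x) k) α β := by
  have hcr : ∀ x y : Hf R, adj x (R.th y) → y = x := by
    intro x y hxy
    have h1 : ¬ R.L (R.th y) := fun h => ((R.half y).1 h) y.2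
    have h2 := R.cross _ _ hxy x.2 h1
    apply Subtype.ext
    rw [← R.invol y, h2, R.invol]
  have hcr' : ∀ x y : Hf R, adj (R.th x) y → y = x := fun x y hxy => (hcr y x (hsym _ _ hxy)).symm
  have e1 : ∀ x : Hf R, ∑ y : Hf R, ind (adj x (R.th y)) *
      ∑ k, (S (glue R α β x) k - S (glue R α β (R.th y)) k - h x (R.th y) k) ^ 2 =
      ind (adj x (R.th x)) * ∑ k, (S (α x) k - h x (R.th x) k - S (β x) k) ^ 2 := by
    intro x
    rw [Finset.sum_eq_single x]
    · rw [glue_L, glue_R]
      congr 1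
      apply Finset.sum_congr rfl
      intro k _
      ring
    · intro y _ hy
      rw [ind_false (fun h => hy (hcr x y h)), zero_mul]
    · intro h
      exact absurd (Finset.mem_univ _) h
  have e2 : ∀ x : Hf R, ∑ y : Hf R, ind (adj (R.th x) y) *
      ∑ k, (S (glue R α β (R.th x)) k - S (glue R α β y) k - h (R.th x) y k) ^ 2 =
      ind (adj x (R.th x)) * ∑ k, (S (α x) k - h x (R.th x) k - S (β x) k) ^ 2 := by
    intro x
    rw [Finset.sum_eq_single x]
    · rw [glue_L, glue_R]
      rw [ind_congr (show adj (R.th x) x ↔ adj x (R.th x) from ⟨hsym _ _, hsym _ _⟩)]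
      congr 1
      apply Finset.sum_congr rfl
      intro k _
      rw [hh (R.th x) x k]
      ring
    · intro y _ hy
      rw [ind_false (fun h => hy (hcr' x y h)), zero_mul]
    · intro h
      exact absurd (Finset.mem_univ _) h
  have e3 : ∀ x y : Hf R, ind (adj (R.th x) (R.th y)) = ind (adj x y) := by
    intro x y
    apply ind_congr
    constructor
    · intro h
      have := R.aut _ _ h
      rwa [R.invol, R.invol] at this
    · exact R.aut _ _
  unfold gEn Ein Ecr
  have s1 : ∀ x : T, ∑ y, ind (adj x y) *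
      ∑ k, (S (glue R α β x) k - S (glue R α β y) k - h x y k) ^ 2 =
      ∑ y : Hf R, ind (adj x y) *
        ∑ k, (S (glue R α β x) k - S (glue R α β y) k - h x y k) ^ 2 +
      ∑ y : Hf R, ind (adj x (R.th y)) *
        ∑ k, (S (glue R α β x) k - S (glue R α β (R.th y)) k - h x (R.th y) k) ^ 2 :=
    fun x => sum_split R _
  rw [Finset.sum_congr rfl (fun x _ => s1 x), sum_split R]
  rw [Finset.sum_add_distrib, Finset.sum_add_distrib]
  rw [Finset.sum_congr rfl (fun x _ => e1 x), Finset.sum_congr rfl (fun x _ => e2 x)]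
  simp only [e3, glue_L, glue_R]
  ring

theorem ZG_split {adj : T → T → Prop} (hsym : ∀ x y, adj x y → adj y x) (R : GRefl adj)
    (S : C → ι → ℝ) (b : ℝ) {h : T → T → ι → ℝ} (hh : Anti h) :
    ZG b adj S h = ∑ α : Hf R → C, ∑ β : Hf R → C,
      Real.exp (-(b * Ein R S (fun x y k => h x y k) α)) *
      Real.exp (-(b * Ein R S (fun x y k => h (R.th x) (R.th y) k) β)) *
      Real.exp (-(2 * b * Ecr R S (fun x k => h x (R.th x) k) α β)) := by
  unfold ZG
  rw [← (glueEquiv R (C := C)).sum_comp, Fintype.sum_prod_type]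
  refine Finset.sum_congr rfl fun α _ => Finset.sum_congr rfl fun β _ => ?_
  have : (glueEquiv R (C := C)) (α, β) = glue R α β := rfl
  rw [this, gEn_glue hsym R S hh, ← Real.exp_add, ← Real.exp_add]
  congr 1
  ring

theorem Ecr_eq {adj : T → T → Prop} (R : GRefl adj)
    (S : C → ι → ℝ) (ψ : Hf R → ι → ℝ) (α β : Hf R → C) (P Q : Hf R × ι → ℝ)
    (hPQ : ∀ x k, P (x, k) - Q (x, k) = ind (adj x (R.th x)) * (S (α x) k - ψ x k - S (β x) k)) :
    Ecr R S ψ α β = ∑ p, (P p - Q p) ^ 2 := by
  unfold Ecr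
  rw [Fintype.sum_prod_type]
  refine Finset.sum_congr rfl fun x _ => ?_
  rw [Finset.mul_sum]
  refine Finset.sum_congr rfl fun k _ => ?_
  rw [hPQ]
  rcases ind_zero_or_one (adj x (R.th x)) with h | h <;> rw [h] <;> ring

theorem anti_hLft {adj : T → T → Prop} (R : GRefl adj) {h : T → T → ι → ℝ} (hh : Anti h) :
    Anti (hLft R h) := by
  intro x y k
  unfold hLft
  rw [ind_congr (show R.L y ∧ R.L x ↔ R.L x ∧ R.L y from and_comm),
    ind_congr (show ¬ R.L y ∧ ¬ R.L x ↔ ¬ R.L x ∧ ¬ R.L y from and_comm), hh y x k,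
    hh (R.th y) (R.th x) k]
  ring

theorem anti_hRgt {adj : T → T → Prop} (R : GRefl adj) {h : T → T → ι → ℝ} (hh : Anti h) :
    Anti (hRgt R h) := by
  intro x y k
  unfold hRgt
  rw [ind_congr (show R.L y ∧ R.L x ↔ R.L x ∧ R.L y from and_comm),
    ind_congr (show ¬ R.L y ∧ ¬ R.L x ↔ ¬ R.L x ∧ ¬ R.L y from and_comm), hh y x k,
    hh (R.th y) (R.th x) k]
  ring

end RefIneq

open RefIneq in
/-- reflection inequality for the partition function in an edge field -/
theorem refl_ineq {adj : T → T → Prop} (hsym : ∀ x y, adj x y → adj y x) (R : GRefl adj)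
    (S : C → ι → ℝ) {b : ℝ} (hb : 0 ≤ b) {h : T → T → ι → ℝ} (hh : Anti h) :
    ZG b adj S h ^ 2 ≤ ZG b adj S (hLft R h) * ZG b adj S (hRgt R h) := by
  rw [ZG_split hsym R S b hh, ZG_split hsym R S b (anti_hLft R hh),
    ZG_split hsym R S b (anti_hRgt R hh)]
  have hL : ∀ x : Hf R, R.L x := fun x => x.2
  have hnL : ∀ x : Hf R, ¬ R.L (R.th x) := fun x h => ((R.half x).1 h) x.2
  -- the values of the reflected fields
  have l1 : (fun (x y : Hf R) k => hLft R h x y k) = fun (x y : Hf R) k => h x y k := by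
    funext x y k
    unfold hLft
    rw [ind_true (⟨hL x, hL y⟩ : R.L x ∧ R.L y),
      ind_false (fun h : ¬ R.L x ∧ ¬ R.L y => h.1 (hL x))]
    ring
  have l2 : (fun (x y : Hf R) k => hLft R h (R.th x) (R.th y) k) =
      fun (x y : Hf R) k => h x y k := by
    funext x y k
    unfold hLft
    rw [ind_false (fun h : R.L (R.th x) ∧ R.L (R.th y) => hnL x h.1),
      ind_true (⟨hnL x, hnL y⟩ : ¬ R.L (R.th x) ∧ ¬ R.L (R.th y)), R.invol, R.invol]
    ring
  have l3 : (fun (x : Hf R) k => hLft R h x (R.th x) k) = fun (x : Hf R) k => 0 := by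
    funext x k
    unfold hLft
    rw [ind_false (fun h : R.L x ∧ R.L (R.th x) => hnL x h.2),
      ind_false (fun h : ¬ R.L x ∧ ¬ R.L (R.th x) => h.1 (hL x))]
    ring
  have r1 : (fun (x y : Hf R) k => hRgt R h x y k) =
      fun (x y : Hf R) k => h (R.th x) (R.th y) k := by
    funext x y k
    unfold hRgt
    rw [ind_true (⟨hL x, hL y⟩ : R.L x ∧ R.L y),
      ind_false (fun h : ¬ R.L x ∧ ¬ R.L y => h.1 (hL x))]
    ring
  have r2 : (fun (x y : Hf R) k => hRgt R h (R.th x) (R.th y) k) =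
      fun (x y : Hf R) k => h (R.th x) (R.th y) k := by
    funext x y k
    unfold hRgt
    rw [ind_false (fun h : R.L (R.th x) ∧ R.L (R.th y) => hnL x h.1),
      ind_true (⟨hnL x, hnL y⟩ : ¬ R.L (R.th x) ∧ ¬ R.L (R.th y))]
    ring
  have r3 : (fun (x : Hf R) k => hRgt R h x (R.th x) k) = fun (x : Hf R) k => 0 := by
    funext x k
    unfold hRgt
    rw [ind_false (fun h : R.L x ∧ R.L (R.th x) => hnL x h.2),
      ind_false (fun h : ¬ R.L x ∧ ¬ R.L (R.th x) => h.1 (hL x))]
    ring
  simp only [l1, l2, l3, r1, r2, r3]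
  let P : (Hf R → C) → Hf R × ι → ℝ := fun α p =>
    ind (adj p.1 (R.th p.1)) * (S (α p.1) p.2 - h p.1 (R.th p.1) p.2)
  let Q : (Hf R → C) → Hf R × ι → ℝ := fun α p =>
    ind (adj p.1 (R.th p.1)) * S (α p.1) p.2
  have hPQ : ∀ α β, Ecr R S (fun x k => h x (R.th x) k) α β = ∑ p, (P α p - Q β p) ^ 2 := by
    intro α β
    apply Ecr_eq
    intro x k
    simp only [P, Q]
    ring
  have hPP : ∀ α β, Ecr R S (fun x k => 0) α β = ∑ p, (P α p - P β p) ^ 2 := by
    intro α β
    apply Ecr_eq
    intro x k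
    simp only [P]
    ring
  have hQQ : ∀ α β, Ecr R S (fun x k => 0) α β = ∑ p, (Q α p - Q β p) ^ 2 := by
    intro α β
    apply Ecr_eq
    intro x k
    simp only [Q]
    ring
  have key := gauss_cs (c := 2 * b) (by positivity)
    (fun α : Hf R → C => Real.exp (-(b * Ein R S (fun x y k => h x y k) α)))
    (fun β : Hf R → C => Real.exp (-(b * Ein R S (fun x y k => h (R.th x) (R.th y) k) β))) P Q
  simp_rw [hPQ]
  simp only [← hPP, ← hQQ] at key
  exact key

end FKB
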