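import Mathlib

open Finset
noncomputable section
namespace FKB

/-- a linear functional bounded by the energy is given by a flow -/
theorem riesz_flow {V : Type*} [DecidableEq V] (D : Finset (V × V)) {K : ℝ} (hK : 0 ≤ K)
    (l : (V → ℝ) →ₗ[ℝ] ℝ)
    (h : ∀ r : V → ℝ, l r ^ 2 ≤ K * ∑ e ∈ D, (r e.1 - r e.2) ^ 2) :
    ∃ f : V × V → ℝ, (∀ r : V → ℝ, ∑ e ∈ D, f e * (r e.1 - r e.2) = l r) ∧
      ∑ e ∈ D, f e ^ 2 ≤ K := by
  classical
  let A : (V → ℝ) →ₗ[ℝ] EuclideanSpace ℝ D :=
    { toFun := fun r => WithLp.toLp 2 (fun e : D => r e.1.1 - r e.1.2)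
      map_add' := by
        intro r s
        ext e
        simp
        ring
      map_smul' := by
        intro c r
        ext e
        simp
        ring }
  have hA : ∀ (r : V → ℝ) (e : D), A r e = r e.1.1 - r e.1.2 := fun r e => rfl
  have hnorm : ∀ r : V → ℝ, ‖A r‖ ^ 2 = ∑ e ∈ D, (r e.1 - r e.2) ^ 2 := by
    intro r
    rw [EuclideanSpace.norm_sq_eq]
    simp only [hA, Real.norm_eq_abs, sq_abs]
    exact Finset.sum_coe_sort D (fun e => (r e.1 - r e.2) ^ 2)
  have hker : ∀ r : V → ℝ, A r = 0 → l r = 0 := by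
    intro r hr
    have h1 := h r
    rw [← hnorm r, hr] at h1
    simp only [norm_zero, ne_eq, OfNat.ofNat_ne_zero, not_false_eq_true, zero_pow,
      mul_zero] at h1
    exact pow_eq_zero_iff (two_ne_zero) |>.1 (le_antisymm h1 (sq_nonneg _))
  obtain ⟨g, hg⟩ := A.rangeRestrict.exists_rightInverse_of_surjective
    (LinearMap.range_rangeRestrict A)
  have hgA : ∀ r : V → ℝ, l (g (A.rangeRestrict r)) = l r := by
    intro r
    have h1 : A.rangeRestrict (g (A.rangeRestrict r)) = A.rangeRestrict r := by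
      exact LinearMap.congr_fun hg (A.rangeRestrict r)
    have h2 : A (g (A.rangeRestrict r) - r) = 0 := by
      rw [map_sub, sub_eq_zero]
      have := congrArg Subtype.val h1
      simpa using this
    have h3 := hker _ h2
    rw [map_sub, sub_eq_zero] at h3
    exact h3
  let l' : (LinearMap.range A) →L[ℝ] ℝ := LinearMap.toContinuousLinearMap (l ∘ₗ g)
  let f0 : LinearMap.range A := (InnerProductSpace.toDual ℝ (LinearMap.range A)).symm l'
  have hf0 : ∀ r : V → ℝ, inner ℝ (f0 : EuclideanSpace ℝ D) (A r) = l r := by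
    intro r
    have h1 : inner ℝ f0 (A.rangeRestrict r) = l' (A.rangeRestrict r) :=
      InnerProductSpace.toDual_symm_apply
    have h2 : l' (A.rangeRestrict r) = l r := hgA r
    rw [h2] at h1
    exact h1
  refine ⟨fun e => if he : e ∈ D then (f0 : EuclideanSpace ℝ D) ⟨e, he⟩ else 0, ?_, ?_⟩
  · intro r
    rw [← hf0 r, PiLp.inner_apply, ← Finset.sum_coe_sort D]
    refine Finset.sum_congr rfl fun e _ => ?_
    simp [hA, mul_comm]
  · obtain ⟨r0, hr0⟩ := f0.2
    have h1 : ∑ e ∈ D, (if he : e ∈ D then (f0 : EuclideanSpace ℝ D) ⟨e, he⟩ else 0) ^ 2 =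
        ‖(f0 : EuclideanSpace ℝ D)‖ ^ 2 := by
      rw [EuclideanSpace.norm_sq_eq, ← Finset.sum_coe_sort D]
      refine Finset.sum_congr rfl fun e _ => ?_
      simp
    rw [h1]
    have h2 : ‖(f0 : EuclideanSpace ℝ D)‖ ^ 2 = l r0 := by
      rw [← hf0 r0, hr0, real_inner_self_eq_norm_sq]
    have h3 := h r0
    rw [← hnorm r0, hr0, ← h2] at h3
    set N := ‖(f0 : EuclideanSpace ℝ D)‖ ^ 2 with hN
    have hN0 : 0 ≤ N := by positivity
    rcases hN0.eq_or_lt with h4 | h4
    · rw [← h4]; exact hK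
    · nlinarith

end FKB
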