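import Pool.Agent.IR.Torus
import Pool.Agent.FKB.LimitA

open Finset
noncomputable section
namespace FKB

/-- edges of the torus are local around a cube far from the faces -/
theorem upper_local {d L l : ℕ} {x : Pt d}
    (hx : ∀ i, -(L : ℤ) < x i - l ∧ x i + l < (L : ℤ) - 1) {e : Pt d × Pt d}
    (he : e ∈ torE d L) (hn : e ∉ lat (cube x l)) :
    (e.1 ∈ cube x l → e.1 ∈ bd (cube x l)) ∧ (e.2 ∈ cube x l → e.2 ∈ bd (cube x l)) := by
  unfold torE at he
  rw [mem_union] at he
  rcases he with he | he
  · exact lat_local (isLat_lat _ e he) hn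
  · rw [mem_filter] at he
    obtain ⟨_, i, h1, h2⟩ := he
    constructor
    · intro h
      rw [mem_cube] at h
      have h3 := h i
      rw [abs_le] at h3
      have := (hx i).2
      omega
    · intro h
      rw [mem_cube] at h
      have h3 := h i
      rw [abs_le] at h3
      have h4 : e.2 i = e.1 i - (2 * (L : ℤ) - 1) := by
        rw [h2]; simp
      have := (hx i).1
      omega

/-- connections in the torus leave cubes: wired upper bound -/
theorem tor_upper {d L l : ℕ} {p q : ℝ} (hq : 1 ≤ q) (hp0 : 0 ≤ p) (hp1 : p ≤ 1) {x y : Pt d}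
    (hx : ∀ i, -(L : ℤ) < x i - l ∧ x i + l < (L : ℤ) - 1) (hy : y ∉ cube x l) :
    P (torE d L) (fun _ => p) q (fun A => Conn A x y) ≤ th d l p q := by
  have hq0 : 0 < q := lt_of_lt_of_le one_pos hq
  have hadm : Adm (torE d L) (fun _ => p) := fun _ _ => ⟨hp0, hp1⟩
  set F : Finset (Pt d × Pt d) → ℝ := fun B => ind (Far l B x) with hF
  have hInc : Inc (lat (cube x l)) F := fun A B hAB _ => ind_mono (wirB_far_mono hAB)
  have s1 : P (torE d L) (fun _ => p) q (fun A => Conn A x y) ≤
      E (torE d L) (fun _ => p) q (fun A => F (A ∩ lat (cube x l))) := by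
    apply E_mono hq0 hadm
    intro A hA
    apply ind_mono
    intro hc
    rw [wirB_far_inter]
    by_contra hn
    have key := hc.inv (fun v => v ∈ cube x l ∧ Conn (A ∩ lat (cube x l)) x v) (by
      intro e he
      have hbd : ∀ v, Conn (A ∩ lat (cube x l)) x v → v ∉ bd (cube x l) :=
        fun v hv hb => hn ⟨v, hb, hv⟩
      constructor
      · rintro ⟨h1, h2⟩
        by_cases hlat : e ∈ lat (cube x l)
        · have hv := verts_lat _ e hlat
          exact ⟨hv.2, h2.trans' (Conn.edge (Finset.mem_inter.2 ⟨he, hlat⟩))⟩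
        · exact absurd ((upper_local hx (hA he) hlat).1 h1) (hbd _ h2)
      · rintro ⟨h1, h2⟩
        by_cases hlat : e ∈ lat (cube x l)
        · have hv := verts_lat _ e hlat
          exact ⟨hv.1, h2.trans' (Conn.edge (Finset.mem_inter.2 ⟨he, hlat⟩)).symm'⟩
        · exact absurd ((upper_local hx (hA he) hlat).2 h1) (hbd _ h2))
    exact hy (key.1 ⟨latgeo_self_mem x l, Conn.rfl' _ _⟩).1
  have s2 := E_le_wired (D := torE d L) (w := fun _ => p) (p := p) hq hp0 hp1 hadm (cube x l)
    (fun e he hn => upper_local hx he hn) (fun e _ _ => Or.inl le_rfl) hInc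
  have s3 : E (wD (cube x l)) (pr (wO (cube x l)) p) q (fun A => F (A ∩ lat (cube x l))) =
      th d l p q := by
    rw [← th_translate x l p q]
    apply E_congr
    intro A _
    exact ind_congr wirB_far_inter
  rw [← s3]
  exact s1.trans s2

end FKB
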