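import Pool.Agent.IR.Potts
import Pool.Agent.IR.Riesz
import Pool.Agent.IR.Upper
import Pool.Agent.FKQ.Flow

open Finset
noncomputable section
namespace FKB

private theorem sub_one' {V : Type*} {X Q : Finset V} (hQ : Q ⊆ X) (G : V → ℝ) :
    ∑ x ∈ X, ind (x ∈ Q) * G x = ∑ x ∈ Q, G x := by
  rw [← Finset.sum_subset hQ (f := fun x => ind (x ∈ Q) * G x)]
  · exact Finset.sum_congr rfl fun x hx => by rw [ind_true hx, one_mul]
  · intro x _ hx
    rw [ind_false hx, zero_mul]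

private theorem sub_two {V : Type*} {X Q R : Finset V} (hQ : Q ⊆ X) (hR : R ⊆ X) (a b : ℝ)
    (F : V → V → ℝ) :
    ∑ x ∈ X, ∑ y ∈ X, (ind (x ∈ Q) * a) * (ind (y ∈ R) * b) * F x y =
      a * b * ∑ x ∈ Q, ∑ y ∈ R, F x y := by
  have h1 : ∀ x ∈ X, ∑ y ∈ X, (ind (x ∈ Q) * a) * (ind (y ∈ R) * b) * F x y =
      ind (x ∈ Q) * (a * b * ∑ y ∈ R, F x y) := by
    intro x _
    rw [← sub_one' hR (fun y => F x y), Finset.mul_sum, Finset.mul_sum]
    exact Finset.sum_congr rfl fun y _ => by ring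
  rw [Finset.sum_congr rfl h1, sub_one' hQ, ← Finset.mul_sum]

private theorem sub_mem_tbox {d L : ℕ} {x : Pt d} :
    x ∈ tbox d L ↔ ∀ i, -(L : ℤ) ≤ x i ∧ x i ≤ (L : ℤ) - 1 := by
  rw [tbox, Finset.mem_Icc, Pi.le_def, Pi.le_def]
  exact ⟨fun h i => ⟨h.1 i, h.2 i⟩, fun h => ⟨fun i => (h i).1, fun i => (h i).2⟩⟩

private theorem sub_l {d q : ℕ} (hd : 3 ≤ d) (hq : 2 ≤ q) {C : ℝ} (hC0 : 0 < C)
    (hC : ∀ (c c' : Pt d) (a b ρ : ℕ), 1 ≤ a → 1 ≤ b → a ≤ ρ → b ≤ ρ →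
      (∀ i, |c i - c' i| ≤ ρ) → ∀ r : Pt d → ℝ,
      ((∑ x ∈ cube c a, r x) / (cube c a).card - (∑ x ∈ cube c' b, r x) / (cube c' b).card) ^ 2 *
          (min a b : ℕ) ^ (d - 2) ≤
        C * ∑ e ∈ lat (thick c c' (2 * ρ)), (r e.1 - r e.2) ^ 2)
    {p : ℝ} (hp0 : 0 < p) (hp1 : p < 1) (n M l : ℕ) (hn : 1 ≤ n) :
    ((∑ x ∈ cube (0 : Pt d) n, ∑ y ∈ cube (0 : Pt d) n, fP (cube (0 : Pt d) M) p q x y) /
        ((cube (0 : Pt d) n).card : ℝ) ^ 2 - 2 * th d l p q) *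
          ((n : ℝ) ^ (d - 2) * (-Real.log (1 - p))) ≤ 4 * q * C := by
  have hq1 : (1 : ℝ) ≤ q := by exact_mod_cast (by omega : 1 ≤ q)
  have hβ : 0 < -Real.log (1 - p) := by
    have := Real.log_neg (by linarith : (0 : ℝ) < 1 - p) (by linarith)
    linarith
  set i0 : Fin d := ⟨0, by omega⟩ with hi0
  set ρ : ℕ := 2 * n + l + 1 with hρ
  set c' : Pt d := fun i => if i = i0 then (ρ : ℤ) else 0 with hc'
  set L : ℕ := M + 3 * ρ + n + l + 3 with hL
  have hc'1 : ∀ i, 0 ≤ c' i ∧ c' i ≤ ρ := by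
    intro i
    simp only [hc']
    split_ifs
    · exact ⟨by positivity, le_rfl⟩
    · exact ⟨le_rfl, by positivity⟩
  set Q : Finset (Pt d) := cube (0 : Pt d) n with hQ
  set Q' : Finset (Pt d) := cube c' n with hQ'
  -- coordinates
  have hQm : ∀ x ∈ Q, ∀ i, -(n : ℤ) ≤ x i ∧ x i ≤ n := by
    intro x hx i
    have h := abs_le.1 (mem_cube.1 hx i)
    simp only [Pi.zero_apply, sub_zero] at h
    exact h
  have hQ'm : ∀ x ∈ Q', ∀ i, c' i - (n : ℤ) ≤ x i ∧ x i ≤ c' i + n := by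
    intro x hx i
    have h := abs_le.1 (mem_cube.1 hx i)
    constructor <;> linarith [h.1, h.2]
  have hρZ : (ρ : ℤ) = 2 * n + l + 1 := by rw [hρ]; push_cast; ring
  have hLZ : (L : ℤ) = M + 3 * ρ + n + l + 3 := by rw [hL]; push_cast; ring
  have hQt : Q ⊆ tbox d L := by
    intro x hx
    rw [sub_mem_tbox]
    intro i
    have h := hQm x hx i
    constructor <;> omega
  have hQ't : Q' ⊆ tbox d L := by
    intro x hx
    rw [sub_mem_tbox]
    intro i
    have h := hQ'm x hx i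
    have h2 := hc'1 i
    constructor <;> omega
  have hMt : cube (0 : Pt d) M ⊆ tbox d L := by
    intro x hx
    rw [sub_mem_tbox]
    intro i
    have h := abs_le.1 (mem_cube.1 hx i)
    simp only [Pi.zero_apply, sub_zero] at h
    constructor <;> omega
  have hTt : thick (0 : Pt d) c' (2 * ρ) ⊆ tbox d L := by
    intro x hx
    rw [sub_mem_tbox]
    intro i
    rw [thick, Finset.mem_Icc, Pi.le_def, Pi.le_def] at hx
    have h1 := hx.1 i
    have h2 := hx.2 i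
    have h3 := hc'1 i
    simp only [Pi.zero_apply, min_eq_left h3.1, max_eq_right h3.1] at h1 h2
    push_cast at h1 h2
    constructor <;> omega
  set D : Finset (Pt d × Pt d) := lat (thick (0 : Pt d) c' (2 * ρ)) with hD
  have hDt : D ⊆ torE d L := (lat_mono hTt).trans Finset.subset_union_left
  have hMD : lat (cube (0 : Pt d) M) ⊆ torE d L := (lat_mono hMt).trans Finset.subset_union_left
  -- the flow
  set lf : (Pt d → ℝ) →ₗ[ℝ] ℝ :=
    { toFun := fun r => (∑ x ∈ Q, r x) / (Q.card : ℝ) - (∑ x ∈ Q', r x) / (Q'.card : ℝ)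
      map_add' := by
        intro r s
        simp only [Pi.add_apply, Finset.sum_add_distrib]
        ring
      map_smul' := by
        intro a r
        simp only [Pi.smul_apply, smul_eq_mul, ← Finset.mul_sum, RingHom.id_apply]
        ring } with hlf
  have hnpos : (0 : ℝ) < (n : ℝ) ^ (d - 2) := by
    have : (0 : ℝ) < n := by exact_mod_cast hn
    positivity
  have hlf1 : ∀ r : Pt d → ℝ, lf r ^ 2 ≤
      (C / (n : ℝ) ^ (d - 2)) * ∑ e ∈ D, (r e.1 - r e.2) ^ 2 := by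
    intro r
    have h := hC 0 c' n n ρ hn hn (by omega) (by omega)
      (by
        intro i
        have := hc'1 i
        rw [Pi.zero_apply, zero_sub, abs_neg, abs_of_nonneg this.1]
        exact this.2) r
    rw [min_self] at h
    rw [div_mul_eq_mul_div, le_div_iff₀ hnpos]
    exact h
  obtain ⟨f, hf1, hf2⟩ := riesz_flow D (div_nonneg hC0.le hnpos.le) lf hlf1
  set a : ℝ := 1 / (Q.card : ℝ) with ha
  set b : ℝ := 1 / (Q'.card : ℝ) with hb
  set g : Pt d → ℝ := fun x => ind (x ∈ Q) * a - ind (x ∈ Q') * b with hg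
  have key := infra_P (L := L) (by omega) hq hp0 hp1 (fun e => ind (e ∈ D) * f e) g (by
    intro r
    have h1 : ∑ e ∈ torE d L, ind (e ∈ D) * f e * (r e.1 - r e.2) = lf r := by
      rw [← hf1 r, ← sub_one' hDt (fun e => f e * (r e.1 - r e.2))]
      exact Finset.sum_congr rfl fun e _ => by ring
    have h2 : ∑ x ∈ tbox d L, g x * r x = a * ∑ x ∈ Q, r x - b * ∑ x ∈ Q', r x := by
      rw [← sub_one' hQt r, ← sub_one' hQ't r, Finset.mul_sum, Finset.mul_sum,
        ← Finset.sum_sub_distrib]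
      exact Finset.sum_congr rfl fun x _ => by simp only [hg]; ring
    rw [h1, h2, hlf, ha, hb]
    show (∑ x ∈ Q, r x) / (Q.card : ℝ) - (∑ x ∈ Q', r x) / (Q'.card : ℝ) = _
    ring)
  have hfe : ∑ e ∈ torE d L, (ind (e ∈ D) * f e) ^ 2 ≤ C / (n : ℝ) ^ (d - 2) := by
    refine le_trans (le_of_eq ?_) hf2
    rw [← sub_one' hDt (fun e => f e ^ 2)]
    refine Finset.sum_congr rfl fun e _ => ?_
    by_cases he : e ∈ D
    · rw [ind_true he]; ring
    · rw [ind_false he]; ring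
  set F : Pt d → Pt d → ℝ := fun x y => P (torE d L) (fun _ => p) q (fun A => Conn A x y) with hF
  have hadm : Adm (torE d L) (fun _ => p) := fun e _ => ⟨hp0.le, hp1.le⟩
  have hF0 : ∀ x y, 0 ≤ F x y := fun x y => P_nonneg (by linarith) hadm _
  have hexp : ∑ x ∈ tbox d L, ∑ y ∈ tbox d L, g x * g y * F x y =
      a * a * ∑ x ∈ Q, ∑ y ∈ Q, F x y - a * b * ∑ x ∈ Q, ∑ y ∈ Q', F x y -
      b * a * ∑ x ∈ Q', ∑ y ∈ Q, F x y + b * b * ∑ x ∈ Q', ∑ y ∈ Q', F x y := by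
    rw [← sub_two hQt hQt, ← sub_two hQt hQ't, ← sub_two hQ't hQt, ← sub_two hQ't hQ't,
      ← Finset.sum_sub_distrib, ← Finset.sum_sub_distrib, ← Finset.sum_add_distrib]
    refine Finset.sum_congr rfl fun x _ => ?_
    rw [← Finset.sum_sub_distrib, ← Finset.sum_sub_distrib, ← Finset.sum_add_distrib]
    refine Finset.sum_congr rfl fun y _ => ?_
    simp only [hg]; ring
  -- cards
  have hQc : (0 : ℝ) < Q.card := by
    have : 0 < Q.card := Finset.card_pos.2 ⟨0, latgeo_self_mem 0 n⟩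
    exact_mod_cast this
  have hQ'c : (0 : ℝ) < Q'.card := by
    have : 0 < Q'.card := Finset.card_pos.2 ⟨c', latgeo_self_mem c' n⟩
    exact_mod_cast this
  have ha0 : 0 < a := by rw [ha]; positivity
  have hb0 : 0 < b := by rw [hb]; positivity
  -- upper bound of the cross terms
  have hupQ : ∀ x ∈ Q, ∀ y ∈ Q', F x y ≤ th d l p q := by
    intro x hx y hy
    refine tor_upper hq1 hp0.le hp1.le ?_ ?_
    · intro i
      have h := hQm x hx i
      constructor <;> omega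
    · intro h
      have h1 := abs_le.1 (mem_cube.1 h i0)
      have h2 := hQm x hx i0
      have h3 := hQ'm y hy i0
      have h4 : c' i0 = ρ := by simp [hc']
      rw [h4] at h3
      omega
  have hupQ' : ∀ x ∈ Q', ∀ y ∈ Q, F x y ≤ th d l p q := by
    intro x hx y hy
    refine tor_upper hq1 hp0.le hp1.le ?_ ?_
    · intro i
      have h := hQ'm x hx i
      have h2 := hc'1 i
      constructor <;> omega
    · intro h
      have h1 := abs_le.1 (mem_cube.1 h i0)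
      have h2 := hQm y hy i0
      have h3 := hQ'm x hx i0
      have h4 : c' i0 = ρ := by simp [hc']
      rw [h4] at h3
      omega
  have hs1 : a * b * ∑ x ∈ Q, ∑ y ∈ Q', F x y ≤ th d l p q := by
    have h1 : ∑ x ∈ Q, ∑ y ∈ Q', F x y ≤ ∑ x ∈ Q, ∑ y ∈ Q', th d l p q :=
      Finset.sum_le_sum fun x hx => Finset.sum_le_sum fun y hy => hupQ x hx y hy
    rw [Finset.sum_const, Finset.sum_const, nsmul_eq_mul, nsmul_eq_mul] at h1
    calc a * b * ∑ x ∈ Q, ∑ y ∈ Q', F x y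
        ≤ a * b * ((Q.card : ℝ) * ((Q'.card : ℝ) * th d l p q)) :=
          mul_le_mul_of_nonneg_left h1 (by positivity)
      _ = th d l p q := by rw [ha, hb]; field_simp
  have hs2 : b * a * ∑ x ∈ Q', ∑ y ∈ Q, F x y ≤ th d l p q := by
    have h1 : ∑ x ∈ Q', ∑ y ∈ Q, F x y ≤ ∑ x ∈ Q', ∑ y ∈ Q, th d l p q :=
      Finset.sum_le_sum fun x hx => Finset.sum_le_sum fun y hy => hupQ' x hx y hy
    rw [Finset.sum_const, Finset.sum_const, nsmul_eq_mul, nsmul_eq_mul] at h1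
    calc b * a * ∑ x ∈ Q', ∑ y ∈ Q, F x y
        ≤ b * a * ((Q'.card : ℝ) * ((Q.card : ℝ) * th d l p q)) :=
          mul_le_mul_of_nonneg_left h1 (by positivity)
      _ = th d l p q := by rw [ha, hb]; field_simp
  have hs3 : 0 ≤ b * b * ∑ x ∈ Q', ∑ y ∈ Q', F x y :=
    mul_nonneg (by positivity) (Finset.sum_nonneg fun x _ => Finset.sum_nonneg fun y _ => hF0 x y)
  have hs4 : (∑ x ∈ Q, ∑ y ∈ Q, fP (cube (0 : Pt d) M) p q x y) / (Q.card : ℝ) ^ 2 ≤
      a * a * ∑ x ∈ Q, ∑ y ∈ Q, F x y := by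
    have h1 : ∑ x ∈ Q, ∑ y ∈ Q, fP (cube (0 : Pt d) M) p q x y ≤ ∑ x ∈ Q, ∑ y ∈ Q, F x y :=
      Finset.sum_le_sum fun x _ => Finset.sum_le_sum fun y _ =>
        fP_le_P hq1 hp0.le hp1.le hadm hMD (fun _ _ => le_rfl) x y
    calc _ = a * a * ∑ x ∈ Q, ∑ y ∈ Q, fP (cube (0 : Pt d) M) p q x y := by
          rw [ha]; field_simp
      _ ≤ _ := mul_le_mul_of_nonneg_left h1 (by positivity)
  have hlow : (∑ x ∈ Q, ∑ y ∈ Q, fP (cube (0 : Pt d) M) p q x y) / (Q.card : ℝ) ^ 2 -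
      2 * th d l p q ≤ ∑ x ∈ tbox d L, ∑ y ∈ tbox d L, g x * g y * F x y := by
    rw [hexp]
    linarith
  have h8 : (∑ x ∈ tbox d L, ∑ y ∈ tbox d L, g x * g y * F x y) * (-Real.log (1 - p)) ≤
      2 * (2 * q) * (C / (n : ℝ) ^ (d - 2)) :=
    key.trans (mul_le_mul_of_nonneg_left hfe (by positivity))
  calc _ ≤ (∑ x ∈ tbox d L, ∑ y ∈ tbox d L, g x * g y * F x y) *
        ((n : ℝ) ^ (d - 2) * (-Real.log (1 - p))) :=
        mul_le_mul_of_nonneg_right hlow (by positivity)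
    _ = ((∑ x ∈ tbox d L, ∑ y ∈ tbox d L, g x * g y * F x y) * (-Real.log (1 - p))) *
        (n : ℝ) ^ (d - 2) := by ring
    _ ≤ (2 * (2 * q) * (C / (n : ℝ) ^ (d - 2))) * (n : ℝ) ^ (d - 2) :=
        mul_le_mul_of_nonneg_right h8 hnpos.le
    _ = 4 * q * C := by field_simp; ring

/-- infrared bound for the free model of a box, below the critical point -/
theorem ir_sub {d q : ℕ} (hd : 3 ≤ d) (hq : 2 ≤ q) :
    ∃ K : ℝ, 0 < K ∧ ∀ p : ℝ, 0 < p → p < 1 → th1 d p q = 0 → ∀ n M : ℕ, 1 ≤ n →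
      (∑ x ∈ cube (0 : Pt d) n, ∑ y ∈ cube (0 : Pt d) n, fP (cube (0 : Pt d) M) p q x y) *
          ((n : ℝ) ^ (d - 2) * (-Real.log (1 - p))) ≤
        K * ((cube (0 : Pt d) n).card : ℝ) ^ 2 := by
  obtain ⟨C, hC0, hC⟩ := qflow hd
  have hq0 : (0 : ℝ) < q := by exact_mod_cast (by omega : 0 < q)
  have hq1 : (1 : ℝ) ≤ q := by exact_mod_cast (by omega : 1 ≤ q)
  refine ⟨4 * q * C, by positivity, ?_⟩
  intro p hp0 hp1 hth n M hn
  have hβ : 0 < -Real.log (1 - p) := by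
    have := Real.log_neg (by linarith : (0 : ℝ) < 1 - p) (by linarith)
    linarith
  have hnpos : (0 : ℝ) < (n : ℝ) ^ (d - 2) := by
    have : (0 : ℝ) < n := by exact_mod_cast hn
    positivity
  set N : ℝ := (n : ℝ) ^ (d - 2) * (-Real.log (1 - p)) with hN
  have hN0 : 0 < N := by positivity
  have hQc : (0 : ℝ) < (cube (0 : Pt d) n).card := by
    have : 0 < (cube (0 : Pt d) n).card := Finset.card_pos.2 ⟨0, latgeo_self_mem 0 n⟩
    exact_mod_cast this
  set S : ℝ := ∑ x ∈ cube (0 : Pt d) n, ∑ y ∈ cube (0 : Pt d) n, fP (cube (0 : Pt d) M) p q x y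
    with hS
  have h1 : S / ((cube (0 : Pt d) n).card : ℝ) ^ 2 * N ≤ 4 * q * C := by
    refine le_of_forall_pos_le_add fun ε hε => ?_
    obtain ⟨l, hl⟩ := th_lt_of_pos (d := d) hq1 hp0.le hp1.le (r := ε / (2 * N))
      (by rw [hth]; positivity)
    have h2 := sub_l hd hq hC0 hC hp0 hp1 n M l hn
    rw [sub_mul] at h2
    have h3 : 2 * th d l p q * N ≤ ε := by
      have h4 : 2 * th d l p q * N ≤ 2 * (ε / (2 * N)) * N :=
        mul_le_mul_of_nonneg_right (by linarith) hN0.le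
      have h5 : 2 * (ε / (2 * N)) * N = ε := by field_simp
      linarith
    linarith
  rw [div_mul_eq_mul_div, div_le_iff₀ (by positivity)] at h1
  exact h1

end FKB
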